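import Pool.Agent.Y398.KZ.Stm

/-!
KZ-SHIFT: good shifts exist, by averaging.
-/

namespace Pool.Agent.Y398.KZ

open Finset

theorem toNat_cast (n : ℤ) (h : 0 ≤ n) : ((n.toNat : ℕ) : ℝ) = (n : ℝ) := by
  have h1 : (((n.toNat : ℕ) : ℤ) : ℝ) = (n : ℝ) := congrArg (Int.cast : ℤ → ℝ) (Int.toNat_of_nonneg h)
  rw [← h1]
  exact (Int.cast_natCast _).symm

/-- Integers in a short interval. -/
theorem card_Icc_le (v : ℝ) : (Finset.Icc ⌈v - 7⌉ ⌊v + 7⌋).card ≤ 15 := by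
  rw [Int.card_Icc]
  have h1 : (v - 7 : ℝ) ≤ ⌈v - 7⌉ := Int.le_ceil _
  have h2 : (⌊v + 7⌋ : ℝ) ≤ v + 7 := Int.floor_le _
  have h3 : ((⌊v + 7⌋ + 1 - ⌈v - 7⌉ : ℤ) : ℝ) ≤ (15 : ℤ) := by
    push_cast
    linarith
  have h4 : ⌊v + 7⌋ + 1 - ⌈v - 7⌉ ≤ 15 := by exact_mod_cast h3
  omega

/-- The bad shifts for a given value. -/
theorem card_bad (m : ℤ) (hm : 2 ≤ m) (v : ℝ) (T' : Finset ℤ)
    (hT : ∀ t ∈ T', m ≤ t ∧ t ≤ 3 * m ∧ ∃ b : ℤ, |v - b * (4 * m : ℤ) - t| ≤ 7) :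
    T'.card ≤ 45 := by
  set b₁ : ℤ := ⌈v / (4 * m : ℤ) - 13 / 8⌉ with hb₁
  have hm' : (2 : ℝ) ≤ (m : ℝ) := by exact_mod_cast hm
  have hsub : T' ⊆ (Finset.Icc ⌈(v - b₁ * (4 * m : ℤ)) - 7⌉ ⌊(v - b₁ * (4 * m : ℤ)) + 7⌋) ∪
      ((Finset.Icc ⌈(v - (b₁ + 1 : ℤ) * (4 * m : ℤ)) - 7⌉ ⌊(v - (b₁ + 1 : ℤ) * (4 * m : ℤ)) + 7⌋) ∪
      (Finset.Icc ⌈(v - (b₁ + 2 : ℤ) * (4 * m : ℤ)) - 7⌉ ⌊(v - (b₁ + 2 : ℤ) * (4 * m : ℤ)) + 7⌋)) := by
    intro t ht
    obtain ⟨h1, h2, b, hb⟩ := hT t ht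
    have h1' : (m : ℝ) ≤ t := by exact_mod_cast h1
    have h2' : (t : ℝ) ≤ 3 * m := by exact_mod_cast h2
    have hb' := abs_le.1 hb
    have hge : (b₁ : ℤ) ≤ b := by
      rw [hb₁, Int.ceil_le]
      push_cast at hb' ⊢
      rw [sub_le_iff_le_add, div_le_iff₀ (by positivity)]
      nlinarith
    have hle : b ≤ b₁ + 2 := by
      by_contra hcon
      push Not at hcon
      have h3 : b₁ + 3 ≤ b := by omega
      have h4 : ((b₁ : ℝ)) + 3 ≤ b := by exact_mod_cast h3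
      have h5 : v / (4 * m : ℤ) - 13 / 8 ≤ b₁ := Int.le_ceil _
      have h6 : v / (4 * m : ℤ) ≤ b - 11 / 8 := by linarith
      rw [div_le_iff₀ (by push_cast; positivity)] at h6
      push_cast at hb' h6
      nlinarith
    rw [Finset.mem_union, Finset.mem_union, Finset.mem_Icc, Finset.mem_Icc, Finset.mem_Icc]
    have hmem : ∀ b' : ℤ, b = b' → ⌈(v - b' * (4 * m : ℤ)) - 7⌉ ≤ t ∧
        t ≤ ⌊(v - b' * (4 * m : ℤ)) + 7⌋ := by
      rintro b' rfl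
      rw [Int.ceil_le, Int.le_floor]
      constructor <;> linarith
    have h3 : b = b₁ ∨ b = b₁ + 1 ∨ b = b₁ + 2 := by omega
    rcases h3 with h3 | h3 | h3
    · exact Or.inl (hmem _ h3)
    · exact Or.inr (Or.inl (hmem _ h3))
    · exact Or.inr (Or.inr (hmem _ h3))
  refine (Finset.card_le_card hsub).trans ((Finset.card_union_le _ _).trans ?_)
  have h1 := card_Icc_le (v - b₁ * (4 * m : ℤ))
  have h2 := card_Icc_le (v - (b₁ + 1 : ℤ) * (4 * m : ℤ))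
  have h3 := card_Icc_le (v - (b₁ + 2 : ℤ) * (4 * m : ℤ))
  have h4 := Finset.card_union_le
    (Finset.Icc ⌈(v - (b₁ + 1 : ℤ) * (4 * m : ℤ)) - 7⌉ ⌊(v - (b₁ + 1 : ℤ) * (4 * m : ℤ)) + 7⌋)
    (Finset.Icc ⌈(v - (b₁ + 2 : ℤ) * (4 * m : ℤ)) - 7⌉ ⌊(v - (b₁ + 2 : ℤ) * (4 * m : ℤ)) + 7⌋)
  omega

/-- Averaging. -/
theorem averaging {ι κ : Type} [Fintype ι] [DecidableEq ι] (T : Finset ℤ) (hT : T.Nonempty)
    (P : Finset κ) (BAD : κ → ι → Finset ℤ) (hB : ∀ p i, BAD p i ⊆ T)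
    (hc : ∀ p i, (BAD p i).card ≤ 45) :
    ∃ g : ι → ℤ, (∀ i, g i ∈ T) ∧ ∀ p ∈ P,
      (2 : ℝ) ^ (Finset.univ.filter (fun i => g i ∈ BAD p i)).card ≤
        P.card * (1 + 45 / (T.card : ℝ)) ^ Fintype.card ι := by
  classical
  have hTc : (0 : ℝ) < T.card := by exact_mod_cast Finset.card_pos.2 hT
  set Ω : Finset (ι → ℤ) := Fintype.piFinset (fun _ => T) with hΩ
  have hΩne : Ω.Nonempty := by
    rw [hΩ, Fintype.piFinset_nonempty]
    exact fun _ => hT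
  have hΩc : (Ω.card : ℝ) = (T.card : ℝ) ^ Fintype.card ι := by
    rw [hΩ, Fintype.card_piFinset]
    simp
  have hsum : ∀ p : κ, ∑ g ∈ Ω, ∏ i, (if g i ∈ BAD p i then (2 : ℝ) else 1) ≤
      ((T.card : ℝ) + 45) ^ Fintype.card ι := by
    intro p
    have h1 : ∑ g ∈ Ω, ∏ i, (if g i ∈ BAD p i then (2 : ℝ) else 1) =
        ∏ i, ∑ x ∈ T, (if x ∈ BAD p i then (2 : ℝ) else 1) := by
      rw [Finset.prod_univ_sum]
    rw [h1]
    have h2 : ∀ i : ι, ∑ x ∈ T, (if x ∈ BAD p i then (2 : ℝ) else 1) ≤ (T.card : ℝ) + 45 := by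
      intro i
      have h3 : ∀ x ∈ T, (if x ∈ BAD p i then (2 : ℝ) else 1) =
          1 + (if x ∈ BAD p i then (1 : ℝ) else 0) := by
        intro x _
        split_ifs <;> norm_num
      rw [Finset.sum_congr rfl h3, Finset.sum_add_distrib]
      have h4 : ∑ x ∈ T, (if x ∈ BAD p i then (1 : ℝ) else 0) = ((BAD p i).card : ℝ) := by
        rw [Finset.sum_ite_mem, Finset.inter_eq_right.2 (hB p i)]
        simp
      rw [h4]
      have h5 : ((BAD p i).card : ℝ) ≤ 45 := by exact_mod_cast hc p i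
      simp only [Finset.sum_const, nsmul_eq_mul, mul_one]
      linarith
    calc ∏ i, ∑ x ∈ T, (if x ∈ BAD p i then (2 : ℝ) else 1) ≤ ∏ _i : ι, ((T.card : ℝ) + 45) := by
          refine Finset.prod_le_prod ?_ (fun i _ => h2 i)
          intro i _
          refine Finset.sum_nonneg ?_
          intro x _
          split_ifs <;> norm_num
      _ = ((T.card : ℝ) + 45) ^ Fintype.card ι := by
          rw [Finset.prod_const, Finset.card_univ]
  have htot : ∑ g ∈ Ω, ∑ p ∈ P, ∏ i, (if g i ∈ BAD p i then (2 : ℝ) else 1) ≤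
      ∑ _g ∈ Ω, (P.card * (1 + 45 / (T.card : ℝ)) ^ Fintype.card ι) := by
    rw [Finset.sum_comm, Finset.sum_const, nsmul_eq_mul, hΩc]
    have h1 : ∑ p ∈ P, ∑ g ∈ Ω, ∏ i, (if g i ∈ BAD p i then (2 : ℝ) else 1) ≤
        ∑ _p ∈ P, ((T.card : ℝ) + 45) ^ Fintype.card ι := Finset.sum_le_sum (fun p _ => hsum p)
    rw [Finset.sum_const, nsmul_eq_mul] at h1
    refine h1.trans (le_of_eq ?_)
    have h2 : (T.card : ℝ) + 45 = T.card * (1 + 45 / (T.card : ℝ)) := by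
      field_simp
    rw [h2, mul_pow]
    ring
  obtain ⟨g, hg, hle⟩ := Finset.exists_le_of_sum_le hΩne htot
  refine ⟨g, fun i => (Fintype.mem_piFinset.1 hg) i, ?_⟩
  intro p hp
  have h1 : ∏ i, (if g i ∈ BAD p i then (2 : ℝ) else 1) =
      (2 : ℝ) ^ (Finset.univ.filter (fun i => g i ∈ BAD p i)).card := by
    rw [Finset.prod_ite]
    simp
  rw [← h1]
  refine le_trans ?_ hle
  refine Finset.single_le_sum (f := fun p => ∏ i, (if g i ∈ BAD p i then (2 : ℝ) else 1)) ?_ hp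
  intro p' _
  refine Finset.prod_nonneg ?_
  intro i _
  split_ifs <;> norm_num

/-- The numerical bound. -/
theorem numeric (j : ℕ) (hj : 1 ≤ j) (m : ℤ) (hm : w j = 4 * m) (n : ℕ)
    (h : (2 : ℝ) ^ n ≤ ((q j * w j * w j : ℤ) : ℝ) *
      (1 + 45 / (2 * (m : ℝ) + 1)) ^ (4 * q j + 1).toNat) :
    n ≤ 30000 * (j + 1) ^ 2 := by
  have hw := w_pos j
  have hq := q_pos j
  have hmr : (w j : ℝ) = 4 * (m : ℝ) := by exact_mod_cast congrArg (Int.cast : ℤ → ℝ) hm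
  have hm0 : (0 : ℝ) < m := by linarith
  have hpos : 0 < (1 + 45 / (2 * (m : ℝ) + 1)) := by positivity
  have h1 := Real.log_le_log (by positivity) h
  rw [Real.log_pow, Real.log_mul (by push_cast; positivity) (by positivity), Real.log_pow] at h1
  have hcast : (((4 * q j + 1).toNat : ℕ) : ℝ) = 4 * (q j : ℝ) + 1 := by
    have h0 : (0 : ℤ) ≤ 4 * q j + 1 := by
      have : (0 : ℤ) < q j := by exact_mod_cast hq
      omega
    rw [toNat_cast _ h0]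
    push_cast
    ring
  rw [hcast] at h1
  have h2 : Real.log (1 + 45 / (2 * (m : ℝ) + 1)) ≤ 90 / (w j : ℝ) := by
    have h3 := Real.log_le_sub_one_of_pos hpos
    have h4 : 45 / (2 * (m : ℝ) + 1) ≤ 90 / (w j : ℝ) := by
      rw [hmr, div_le_div_iff₀ (by positivity) (by positivity)]
      nlinarith
    linarith
  have hq1 : (1 : ℝ) ≤ q j := by
    have : (0 : ℤ) < q j := by exact_mod_cast hq
    exact_mod_cast this
  have h3 : (4 * (q j : ℝ) + 1) * Real.log (1 + 45 / (2 * (m : ℝ) + 1)) ≤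
      14400 * ((j : ℝ) + 1) ^ 2 := by
    have h4 : (4 * (q j : ℝ) + 1) * Real.log (1 + 45 / (2 * (m : ℝ) + 1)) ≤
        (5 * (q j : ℝ)) * (90 / (w j : ℝ)) := by
      have h0 : 0 ≤ Real.log (1 + 45 / (2 * (m : ℝ) + 1)) := by
        apply Real.log_nonneg
        have : 0 ≤ 45 / (2 * (m : ℝ) + 1) := by positivity
        linarith
      have h90 : 0 ≤ 90 / (w j : ℝ) := by positivity
      nlinarith
    refine h4.trans (le_of_eq ?_)
    rw [q_cast, w_cast]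
    field_simp
    ring
  have h4 : Real.log ((q j * w j * w j : ℤ) : ℝ) ≤ 60 * ((j : ℝ) + 1) ^ 2 := by
    push_cast
    rw [q_cast, w_cast]
    have e : (32 : ℝ) * 8 ^ j * ((j : ℝ) + 1) ^ 2 * 8 ^ j * 8 ^ j =
        32 * (8 ^ (3 * j) * ((j : ℝ) + 1) ^ 2) := by
      rw [pow_mul']
      ring
    rw [e, Real.log_mul (by norm_num) (by positivity), Real.log_mul (by positivity) (by positivity),
      Real.log_pow, Real.log_pow]
    have l1 := Real.log_le_sub_one_of_pos (show (0 : ℝ) < 32 by norm_num)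
    have l2 := Real.log_le_sub_one_of_pos (show (0 : ℝ) < 8 by norm_num)
    have l3 := Real.log_le_sub_one_of_pos (show (0 : ℝ) < (j : ℝ) + 1 by positivity)
    have hj0 : (0 : ℝ) ≤ j := by positivity
    push_cast
    nlinarith
  have hl2 : (1 : ℝ) / 2 ≤ Real.log 2 := by
    have := Real.log_two_gt_d9
    linarith
  have hn0 : (0 : ℝ) ≤ n := by positivity
  have h5 : (n : ℝ) ≤ 30000 * ((j : ℝ) + 1) ^ 2 := by nlinarith
  exact_mod_cast h5

/-- Good shifts on one level. -/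
theorem shift_level (j : ℕ) (hj : 1 ≤ j) : ∃ τ : ℤ → ℤ,
    (∀ a : ℤ, w j ≤ 4 * τ a ∧ 4 * τ a ≤ 3 * w j) ∧
    ∀ x y : ℝ, {a : ℤ | |a| ≤ 2 * q j ∧
      ∃ b : ℤ, |y - sl j a * x - ((b : ℝ) * (w j : ℝ) + (τ a : ℝ))| ≤ 4}.ncard
        ≤ 30000 * (j + 1) ^ 2 := by
  classical
  obtain ⟨m, hm, hm2⟩ : ∃ m : ℤ, w j = 4 * m ∧ 2 ≤ m := by
    obtain ⟨k, rfl⟩ : ∃ k, j = k + 1 := ⟨j - 1, by omega⟩
    refine ⟨2 * 8 ^ k, ?_, ?_⟩
    · unfold w
      ring
    · have : (1 : ℤ) ≤ 8 ^ k := one_le_pow₀ (by norm_num)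
      omega
  have hqp : (0 : ℤ) < q j := by exact_mod_cast q_pos j
  have hwp : (0 : ℤ) < w j := by exact_mod_cast w_pos j
  have hqr := q_pos j
  have hwr := w_pos j
  set A : Finset ℤ := Finset.Icc (-(2 * q j)) (2 * q j) with hA
  have hAc : A.card = (4 * q j + 1).toNat := by
    rw [hA, Int.card_Icc]
    congr 1
    ring
  set T : Finset ℤ := Finset.Icc m (3 * m) with hT
  have hTc : (T.card : ℝ) = 2 * (m : ℝ) + 1 := by
    rw [hT, Int.card_Icc]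
    have h0 : (0 : ℤ) ≤ 3 * m + 1 - m := by omega
    rw [toNat_cast _ h0]
    push_cast
    ring
  have hTne : T.Nonempty := by
    rw [hT, Finset.nonempty_Icc]
    omega
  let BAD : ℤ × ℤ → {a // a ∈ A} → Finset ℤ := fun p a => T.filter (fun t =>
    ∃ b : ℤ, |((p.2 : ℝ) - (a.1 : ℝ) / (q j : ℝ) * p.1) - b * (w j : ℝ) - t| ≤ 7)
  obtain ⟨g, hg, hcnt⟩ := averaging (ι := {a // a ∈ A}) T hTne
    (Finset.Ico (0 : ℤ) (q j * w j) ×ˢ Finset.Ico (0 : ℤ) (w j)) BAD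
    (fun p i => Finset.filter_subset _ _)
    (fun p i => by
      refine card_bad m hm2 ((p.2 : ℝ) - (i.1 : ℝ) / (q j : ℝ) * p.1) _ ?_
      intro t ht
      rw [Finset.mem_filter, Finset.mem_Icc, hm] at ht
      exact ⟨ht.1.1, ht.1.2, ht.2⟩)
  refine ⟨fun a => if h : a ∈ A then g ⟨a, h⟩ else m, ?_, ?_⟩
  · intro a
    dsimp only
    split_ifs with h
    · have := hg ⟨a, h⟩
      rw [hT, Finset.mem_Icc] at this
      omega
    · omega
  · intro x y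
    set p : ℤ × ℤ := (⌊x⌋ % (q j * w j), ⌊y⌋ % (w j)) with hp
    have hpP : p ∈ Finset.Ico (0 : ℤ) (q j * w j) ×ˢ Finset.Ico (0 : ℤ) (w j) := by
      rw [Finset.mem_product, Finset.mem_Ico, Finset.mem_Ico]
      have hqw : 0 < q j * w j := by positivity
      exact ⟨⟨Int.emod_nonneg _ hqw.ne', Int.emod_lt_of_pos _ hqw⟩,
        ⟨Int.emod_nonneg _ hwp.ne', Int.emod_lt_of_pos _ hwp⟩⟩
    have hc := hcnt p hpP
    have hcard : ((Finset.Ico (0 : ℤ) (q j * w j) ×ˢ Finset.Ico (0 : ℤ) (w j)).card : ℝ) =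
        ((q j * w j * w j : ℤ) : ℝ) := by
      rw [Finset.card_product, Int.card_Ico, Int.card_Ico]
      have hqw : 0 ≤ q j * w j := by positivity
      rw [sub_zero, sub_zero, Nat.cast_mul, toNat_cast _ hqw, toNat_cast _ hwp.le]
      push_cast
      ring
    rw [hcard, hTc, Fintype.card_coe, hAc] at hc
    have hn := numeric j hj m hm _ hc
    refine le_trans ?_ hn
    have hsub : {a : ℤ | |a| ≤ 2 * q j ∧ ∃ b : ℤ, |y - sl j a * x - ((b : ℝ) * (w j : ℝ) +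
        ((if h : a ∈ A then g ⟨a, h⟩ else m : ℤ) : ℝ))| ≤ 4} ⊆
        ((Finset.univ.filter (fun i : {a // a ∈ A} => g i ∈ BAD p i)).image Subtype.val :
          Finset ℤ) := by
      rintro a ⟨ha, b, hb⟩
      have haA : a ∈ A := by
        rw [hA, Finset.mem_Icc]
        exact abs_le.1 ha
      rw [dif_pos haA] at hb
      rw [Finset.coe_image]
      refine ⟨⟨a, haA⟩, ?_, rfl⟩
      rw [Finset.mem_coe, Finset.mem_filter]
      refine ⟨Finset.mem_univ _, ?_⟩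
      change g ⟨a, haA⟩ ∈ T.filter _
      rw [Finset.mem_filter]
      refine ⟨hg _, b + a * (⌊x⌋ / (q j * w j)) - ⌊y⌋ / (w j), ?_⟩
      have e1 : (⌊x⌋ : ℝ) = (p.1 : ℝ) + (q j : ℝ) * (w j : ℝ) * ((⌊x⌋ / (q j * w j) : ℤ) : ℝ) := by
        have := Int.emod_add_mul_ediv ⌊x⌋ (q j * w j)
        have h := congrArg (Int.cast : ℤ → ℝ) this
        push_cast at h
        rw [hp]
        push_cast
        linarith
      have e2 : (⌊y⌋ : ℝ) = (p.2 : ℝ) + (w j : ℝ) * ((⌊y⌋ / (w j) : ℤ) : ℝ) := by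
        have := Int.emod_add_mul_ediv ⌊y⌋ (w j)
        have h := congrArg (Int.cast : ℤ → ℝ) this
        push_cast at h
        rw [hp]
        push_cast
        linarith
      have e3 : ((p.2 : ℝ) - (a : ℝ) / (q j : ℝ) * p.1) -
          ((b + a * (⌊x⌋ / (q j * w j)) - ⌊y⌋ / (w j) : ℤ) : ℝ) * (w j : ℝ) - (g ⟨a, haA⟩ : ℝ) =
          (y - sl j a * x - ((b : ℝ) * (w j : ℝ) + (g ⟨a, haA⟩ : ℝ))) - (y - ⌊y⌋) +
            sl j a * (x - ⌊x⌋) := by
        unfold sl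
        rw [e1, e2]
        push_cast
        field_simp
        ring
      rw [e3]
      have f1 := Int.fract_nonneg y
      have f2 := (Int.fract_lt_one y).le
      have f3 := Int.fract_nonneg x
      have f4 := (Int.fract_lt_one x).le
      have f5 := abs_le.1 (sl_le j a ha)
      have f6 := abs_le.1 hb
      unfold Int.fract at f1 f2 f3 f4
      rw [abs_le]
      constructor <;> nlinarith
    refine (Set.ncard_le_ncard hsub (Finset.finite_toSet _)).trans ?_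
    rw [Set.ncard_coe_finset]
    exact Finset.card_image_le

theorem t_SHIFT : S_SHIFT := by
  have h : ∀ j : ℕ, ∃ τ : ℤ → ℤ, 1 ≤ j → (∀ a : ℤ, w j ≤ 4 * τ a ∧ 4 * τ a ≤ 3 * w j) ∧
    ∀ x y : ℝ, {a : ℤ | |a| ≤ 2 * q j ∧
      ∃ b : ℤ, |y - sl j a * x - ((b : ℝ) * (w j : ℝ) + (τ a : ℝ))| ≤ 4}.ncard
        ≤ 30000 * (j + 1) ^ 2 := by
    intro j
    by_cases hj : 1 ≤ j
    · obtain ⟨τ, hτ⟩ := shift_level j hj
      exact ⟨τ, fun _ => hτ⟩
    · exact ⟨0, fun h => absurd h hj⟩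
  choose t ht using h
  exact ⟨30000, t, fun j hj => ht j hj⟩

end Pool.Agent.Y398.KZ
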