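import Pool.Agent.Y398.KZ.Final
import Pool.Agent.Y398.KZ.SHIFT
import Pool.Agent.Y151.KZ.RUN
import Pool.Agent.Y151.KZ.SW
import Pool.Agent.Y151.KZ.SEL
import Pool.Agent.Y151.KZ.MAIN
import Pool.Agent.Y151.KZ.DISP
import Pool.Agent.Y151.KZ.LAB
import Pool.Agent.Y907.KZ.Climb
import Pool.Agent.Y349.KZ.MAINH
import Pool.Agent.Y349.KZ.COUNT
import Pool.Agent.Y405.KZ.DEGUP
import Pool.Agent.Y405.KZ.DEGDN

/-!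
All parts of project KZ together.
-/

namespace Pool.Agent.Y398.KZ

theorem all_MAIN : S_MAIN := Pool.Agent.Y151.KZ.t_MAIN (Pool.Agent.Y349.KZ.t_MAINH
  Pool.Agent.Y151.KZ.t_COS Pool.Agent.Y151.KZ.t_TOPRUN Pool.Agent.Y151.KZ.t_SEL
  (Pool.Agent.Y907.KZ.t_CLIMB Pool.Agent.Y151.KZ.t_COS Pool.Agent.Y151.KZ.t_RUN
    (Pool.Agent.Y151.KZ.t_SW Pool.Agent.Y151.KZ.t_COS) Pool.Agent.Y151.KZ.t_SEL))

theorem all_DEG : S_DEG := Pool.Agent.Y405.KZ.t_DEG Pool.Agent.Y405.KZ.t_DEGUP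
  Pool.Agent.Y405.KZ.t_DEGDN

/-- Degrees at most a power of the logarithm, with any exponent. -/
theorem main_T2 (ε : ℝ) (hε : 0 < ε) :
    ∃ (V : Type) (G : SimpleGraph V) (f : V → E2) (C : ℝ), 0 < C ∧ G.Connected ∧
      (∀ x y, ‖f x - f y‖ ≤ (G.dist x y : ℝ)) ∧
      (∀ x y, (G.dist x y : ℝ) < ‖f x - f y‖ + C) ∧ (∀ z : E2, ∃ x, ‖f x - z‖ < C) ∧
      ∀ v, (G.neighborSet v).Finite ∧
        ((G.neighborSet v).ncard : ℝ) ≤ C * (1 + Real.log (1 + ‖f v‖)) ^ ε :=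
  T2 all_MAIN Pool.Agent.Y151.KZ.t_DISP all_DEG t_SHIFT Pool.Agent.Y349.KZ.t_COUNT
    Pool.Agent.Y151.KZ.t_LEV Pool.Agent.Y151.KZ.t_LAB ε hε

/-- A graph of bounded degree. -/
theorem main_T4 :
    ∃ (V : Type) (G : SimpleGraph V) (f : V → E2) (S : Set V) (C : ℝ) (Δ : ℕ), 0 < C ∧
      G.Connected ∧ (∀ v, (G.neighborSet v).Finite ∧ (G.neighborSet v).ncard ≤ Δ) ∧
      (∀ x y, ‖f x - f y‖ ≤ (G.dist x y : ℝ)) ∧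
      (∀ x ∈ S, ∀ y ∈ S, (G.dist x y : ℝ) ≤ ‖f x - f y‖ + C) ∧
      (∀ z : E2, ∃ x ∈ S, ‖f x - z‖ < C) ∧
      ∀ x, ∃ y ∈ S, (G.dist x y : ℝ) ≤ C * (1 + Real.log (1 + Real.log (1 + ‖f x‖))) :=
  T4 all_MAIN Pool.Agent.Y151.KZ.t_DISP all_DEG t_SHIFT Pool.Agent.Y349.KZ.t_COUNT
    Pool.Agent.Y151.KZ.t_LEV Pool.Agent.Y151.KZ.t_LAB

end Pool.Agent.Y398.KZ
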