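import Pool.Agent.Y398.KZ.Stm2

/-!
KZN-BALL and KZN-CELL.
-/

namespace Pool.Agent.Y398.KZN

theorem ncard_le_of_fibres {α β : Type} (W : Set α) (g : α → β) (B : Finset β)
    (hB : ∀ x ∈ W, g x ∈ B) (D : ℕ)
    (h : ∀ b ∈ B, {x | x ∈ W ∧ g x = b}.Finite ∧ {x | x ∈ W ∧ g x = b}.ncard ≤ D) :
    W.Finite ∧ W.ncard ≤ B.card * D := by
  classical
  have hfin : W.Finite := by
    have h1 : (⋃ b ∈ B, {x | x ∈ W ∧ g x = b}).Finite :=
      Set.Finite.biUnion (Finset.finite_toSet B) (fun b hb => (h b hb).1)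
    refine h1.subset ?_
    intro x hx
    rw [Set.mem_iUnion₂]
    exact ⟨g x, hB x hx, hx, rfl⟩
  refine ⟨hfin, ?_⟩
  rw [Set.ncard_eq_toFinset_card _ hfin]
  have h2 : hfin.toFinset.card ≤ D * (hfin.toFinset.image g).card := by
    refine Finset.card_le_mul_card_image _ _ ?_
    intro b hb
    rw [Finset.mem_image] at hb
    obtain ⟨x, hx, rfl⟩ := hb
    have hx' : x ∈ W := hfin.mem_toFinset.1 hx
    obtain ⟨h3, h4⟩ := h (g x) (hB x hx')
    rw [Set.ncard_eq_toFinset_card _ h3] at h4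
    refine le_trans (Finset.card_le_card ?_) h4
    intro y hy
    rw [Finset.mem_filter] at hy
    rw [Set.Finite.mem_toFinset]
    exact ⟨hfin.mem_toFinset.1 hy.1, hy.2⟩
  have h3 : (hfin.toFinset.image g).card ≤ B.card := by
    refine Finset.card_le_card ?_
    intro b hb
    rw [Finset.mem_image] at hb
    obtain ⟨x, hx, rfl⟩ := hb
    exact hB x (hfin.mem_toFinset.1 hx)
  calc hfin.toFinset.card ≤ D * (hfin.toFinset.image g).card := h2
    _ ≤ D * B.card := Nat.mul_le_mul_left _ h3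
    _ = B.card * D := Nat.mul_comm _ _

theorem pred_exists {V : Type} {G : SimpleGraph V} (conn : G.Connected) (v x : V) (i : ℕ)
    (h : G.dist v x = i + 1) : ∃ y, G.dist v y = i ∧ G.Adj y x := by
  obtain ⟨p, hp⟩ := conn.exists_walk_length_eq_dist x v
  rw [SimpleGraph.dist_comm, h] at hp
  cases p with
  | nil => simp at hp
  | cons hadj q =>
    rename_i y
    rw [SimpleGraph.Walk.length_cons] at hp
    refine ⟨y, ?_, hadj.symm⟩
    have h1 : G.dist y v ≤ i := (SimpleGraph.dist_le q).trans (by omega)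
    have h2 : G.dist v x ≤ G.dist v y + G.dist y x := conn.dist_triangle
    have h3 : G.dist y x = 1 := SimpleGraph.dist_eq_one_iff_adj.2 hadj.symm
    rw [SimpleGraph.dist_comm] at h1
    omega

theorem t_BALL : S_BALL := by
  intro V G v r Δ conn hΔ hdeg
  classical
  have hsph : ∀ i ≤ r, {x | G.dist v x = i}.Finite ∧ {x | G.dist v x = i}.ncard ≤ Δ ^ i := by
    intro i
    induction i with
    | zero =>
      intro _
      have h1 : {x | G.dist v x = 0} = {v} := by
        ext x
        rw [Set.mem_ofPred_eq, Set.mem_singleton_iff, conn.dist_eq_zero_iff]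
        exact eq_comm
      rw [h1]
      exact ⟨Set.finite_singleton _, by simp⟩
    | succ i ih =>
      intro hi
      obtain ⟨h1, h2⟩ := ih (by omega)
      have hN : ∀ y, G.dist v y = i → (G.neighborSet y).Finite ∧ (G.neighborSet y).ncard ≤ Δ :=
        fun y hy => hdeg y (by omega)
      let F : V → Finset V := fun y =>
        if h : (G.neighborSet y).Finite then h.toFinset else ∅
      have hF : ∀ y, G.dist v y = i → (F y).card ≤ Δ ∧ ∀ x, G.Adj y x → x ∈ F y := by
        intro y hy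
        obtain ⟨h3, h4⟩ := hN y hy
        have h5 : F y = h3.toFinset := dif_pos h3
        rw [h5]
        refine ⟨?_, ?_⟩
        · rw [← Set.ncard_eq_toFinset_card _ h3]
          exact h4
        · intro x hx
          rw [Set.Finite.mem_toFinset]
          exact hx
      have hsub : {x | G.dist v x = i + 1} ⊆ ((h1.toFinset.biUnion F : Finset V) : Set V) := by
        intro x hx
        obtain ⟨y, hy1, hy2⟩ := pred_exists conn v x i hx
        rw [Finset.mem_coe, Finset.mem_biUnion]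
        exact ⟨y, h1.mem_toFinset.2 hy1, (hF y hy1).2 x hy2⟩
      refine ⟨(Finset.finite_toSet _).subset hsub, ?_⟩
      refine (Set.ncard_le_ncard hsub (Finset.finite_toSet _)).trans ?_
      rw [Set.ncard_coe_finset]
      refine (Finset.card_biUnion_le_card_mul _ _ Δ ?_).trans ?_
      · intro y hy
        exact (hF y (h1.mem_toFinset.1 hy)).1
      · rw [← Set.ncard_eq_toFinset_card _ h1, pow_succ]
        exact Nat.mul_le_mul_right _ h2
  have hball : ∀ i ≤ r, {x | G.dist v x ≤ i}.Finite ∧ {x | G.dist v x ≤ i}.ncard ≤ Δ ^ (i + 1) := by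
    intro i
    induction i with
    | zero =>
      intro hi
      obtain ⟨h1, h2⟩ := hsph 0 hi
      have h3 : {x | G.dist v x ≤ 0} = {x | G.dist v x = 0} := by
        ext x
        simp
      rw [h3]
      refine ⟨h1, h2.trans ?_⟩
      rw [pow_zero, zero_add, pow_one]
      omega
    | succ i ih =>
      intro hi
      obtain ⟨h1, h2⟩ := hsph (i + 1) hi
      obtain ⟨h3, h4⟩ := ih (by omega)
      have h5 : {x | G.dist v x ≤ i + 1} ⊆ {x | G.dist v x ≤ i} ∪ {x | G.dist v x = i + 1} := by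
        intro x hx
        have hx' : G.dist v x ≤ i + 1 := hx
        rcases Nat.lt_or_ge i (G.dist v x) with h6 | h6
        · right
          change G.dist v x = i + 1
          omega
        · left
          exact h6
      refine ⟨(h3.union h1).subset h5, ?_⟩
      refine (Set.ncard_le_ncard h5 (h3.union h1)).trans ((Set.ncard_union_le _ _).trans ?_)
      have h6 : Δ ^ (i + 1 + 1) = Δ ^ (i + 1) * Δ := pow_succ _ _
      rw [h6]
      nlinarith [Nat.zero_le (Δ ^ (i + 1))]
  exact hball r le_rfl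

theorem t_CELL : S_CELL := by
  intro V G f R E Δ m hyp hm hR
  classical
  obtain ⟨conn, lip, one_le_E, two_le, deg, net, upper⟩ := hyp
  have hm1 : (1 : ℝ) ≤ m := by exact_mod_cast hm
  have hs2 : Real.sqrt 2 ≤ 3 / 2 := by
    rw [Real.sqrt_le_left (by norm_num)]
    norm_num
  set W : Set V := {v | |(f v).re| ≤ 2 * m ∧ |(f v).im| ≤ 2 * m} with hW
  have hnorm : ∀ v ∈ W, ‖f v‖ ≤ 4 * m := by
    intro v hv
    have h := Complex.norm_le_abs_re_add_abs_im (f v)
    linarith [hv.1, hv.2]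
  set r := ⌊Real.sqrt 2 + E⌋₊ with hr
  have hrle : (r : ℝ) ≤ Real.sqrt 2 + E := Nat.floor_le (by positivity)
  let g : V → ℤ × ℤ := fun v => (⌊(f v).re⌋, ⌊(f v).im⌋)
  let B : Finset (ℤ × ℤ) := Finset.Icc (-(2 * (m : ℤ))) (2 * m) ×ˢ Finset.Icc (-(2 * (m : ℤ))) (2 * m)
  have hfl : ∀ t : ℝ, |t| ≤ 2 * m → ⌊t⌋ ∈ Finset.Icc (-(2 * (m : ℤ))) (2 * m) := by
    intro t ht
    have h := abs_le.1 ht
    rw [Finset.mem_Icc]
    constructor
    · rw [Int.le_floor]
      push_cast
      exact h.1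
    · have h1 : (⌊t⌋ : ℝ) ≤ ((2 * m : ℤ) : ℝ) := by
        push_cast
        exact (Int.floor_le t).trans h.2
      exact_mod_cast h1
  have hB : ∀ v ∈ W, g v ∈ B := by
    intro v hv
    rw [Finset.mem_product]
    exact ⟨hfl _ hv.1, hfl _ hv.2⟩
  have hfib : ∀ b ∈ B, {x | x ∈ W ∧ g x = b}.Finite ∧ {x | x ∈ W ∧ g x = b}.ncard ≤ Δ ^ (r + 1) := by
    intro b _
    rcases Set.eq_empty_or_nonempty {x | x ∈ W ∧ g x = b} with he | ⟨v₀, hv₀, hgv₀⟩
    · rw [he]
      exact ⟨Set.finite_empty, by simp⟩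
    · have hdist : ∀ x, x ∈ W → g x = b → G.dist v₀ x ≤ r := by
        intro x hx hgx
        have h0 : g v₀ = g x := hgv₀.trans hgx.symm
        have h1 : ⌊(f v₀).re⌋ = ⌊(f x).re⌋ := congrArg Prod.fst h0
        have h2 : ⌊(f v₀).im⌋ = ⌊(f x).im⌋ := congrArg Prod.snd h0
        have h3 : |(f v₀).re - (f x).re| < 1 := Int.abs_sub_lt_one_of_floor_eq_floor h1
        have h4 : |(f v₀).im - (f x).im| < 1 := Int.abs_sub_lt_one_of_floor_eq_floor h2
        have h5 : ‖f v₀ - f x‖ ≤ Real.sqrt 2 := by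
          rw [Complex.norm_def]
          refine Real.sqrt_le_sqrt ?_
          rw [Complex.normSq_apply, Complex.sub_re, Complex.sub_im]
          have h6 := abs_lt.1 h3
          have h7 := abs_lt.1 h4
          nlinarith
        have h6 := upper v₀ x ((hnorm v₀ hv₀).trans (by linarith)) ((hnorm x hx).trans (by linarith))
        rw [hr]
        refine Nat.le_floor ?_
        linarith
      have hball := t_BALL V G v₀ r Δ conn two_le (by
        intro x hx
        refine deg x ?_
        have h1 := lip v₀ x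
        have h2 : (G.dist v₀ x : ℝ) ≤ r := by exact_mod_cast hx
        have h3 := norm_le_norm_add_norm_sub (f v₀) (f x)
        have h4 := hnorm v₀ hv₀
        linarith)
      have hsub : {x | x ∈ W ∧ g x = b} ⊆ {x | G.dist v₀ x ≤ r} := by
        rintro x ⟨hx1, hx2⟩
        exact hdist x hx1 hx2
      exact ⟨hball.1.subset hsub, (Set.ncard_le_ncard hsub hball.1).trans hball.2⟩
  obtain ⟨h1, h2⟩ := ncard_le_of_fibres W g B hB _ hfib
  refine ⟨h1, ?_⟩
  have hBc : (B.card : ℝ) ≤ 36 * (m : ℝ) ^ 2 := by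
    have h3 : (Finset.Icc (-(2 * (m : ℤ))) (2 * m)).card = 4 * m + 1 := by
      rw [Int.card_Icc]
      omega
    have h4 : B.card = (4 * m + 1) * (4 * m + 1) := by
      change (Finset.Icc (-(2 * (m : ℤ))) (2 * m) ×ˢ Finset.Icc (-(2 * (m : ℤ))) (2 * m)).card = _
      rw [Finset.card_product, h3]
    rw [h4]
    push_cast
    nlinarith
  have hΔ : (1 : ℝ) ≤ Δ := by
    have : 1 ≤ Δ := by omega
    exact_mod_cast this
  have hpow : ((Δ ^ (r + 1) : ℕ) : ℝ) ≤ (Δ : ℝ) ^ (3 * E + 1) := by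
    push_cast
    rw [← Real.rpow_natCast]
    refine Real.rpow_le_rpow_of_exponent_le hΔ ?_
    push_cast
    linarith
  have h3 : (W.ncard : ℝ) ≤ (B.card : ℝ) * ((Δ ^ (r + 1) : ℕ) : ℝ) := by exact_mod_cast h2
  refine h3.trans ?_
  have h4 : (0 : ℝ) ≤ ((Δ ^ (r + 1) : ℕ) : ℝ) := by positivity
  gcongr

end Pool.Agent.Y398.KZN
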