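import Pool.Agent.Y398.KZ.SEQ

/-!
KZN-DIR.
-/

namespace Pool.Agent.Y398.KZN

open scoped ComplexConjugate

theorem re'_add_right (h u u' : ℂ) : re' h u + re' h u' = (h * conj (u + u')).re := by
  unfold re'
  rw [map_add, mul_add, Complex.add_re]

theorem uv_dist (t t' : ℝ) (h0 : 0 ≤ t) (h1 : t ≤ 1) (h0' : 0 ≤ t') (h1' : t' ≤ 1) :
    |t - t'| ≤ ‖uv t - uv t'‖ := by
  have e : ‖uv t - uv t'‖ ^ 2 = 4 * (t - t') ^ 2 / ((1 + t ^ 2) * (1 + t' ^ 2)) := by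
    rw [← Complex.normSq_eq_norm_sq, Complex.normSq_apply]
    unfold uv
    simp only [Complex.sub_re, Complex.sub_im]
    have a1 : (1 + t ^ 2 : ℝ) ≠ 0 := by positivity
    have a2 : (1 + t' ^ 2 : ℝ) ≠ 0 := by positivity
    field_simp
    ring
  have h2 : (t - t') ^ 2 ≤ 4 * (t - t') ^ 2 / ((1 + t ^ 2) * (1 + t' ^ 2)) := by
    rw [le_div_iff₀ (by positivity)]
    have h3 : (1 + t ^ 2) * (1 + t' ^ 2) ≤ 4 := by
      have : t ^ 2 ≤ 1 := by nlinarith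
      have : t' ^ 2 ≤ 1 := by nlinarith
      nlinarith [sq_nonneg t, sq_nonneg t']
    nlinarith [sq_nonneg (t - t')]
  rw [← e] at h2
  rw [← Real.sqrt_sq_eq_abs]
  exact (Real.sqrt_le_sqrt h2).trans (le_of_eq (Real.sqrt_sq (norm_nonneg _)))

theorem uv_near (h u u' : ℂ) (τ : ℝ) (hh : ‖h‖ ≤ 1) (hτ : 0 ≤ τ) (hu : ‖u‖ = 1) (hu' : ‖u'‖ = 1)
    (h1 : 1 - re' h u ≤ τ) (h2 : 1 - re' h u' ≤ τ) : ‖u - u'‖ ≤ Real.sqrt (8 * τ) := by
  have h3 : 2 - 2 * τ ≤ ‖u + u'‖ := by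
    have h4 := re'_add_right h u u'
    have h5 := Complex.re_le_norm (h * conj (u + u'))
    rw [norm_mul, Complex.norm_conj] at h5
    have h6 : ‖h‖ * ‖u + u'‖ ≤ ‖u + u'‖ := by nlinarith [norm_nonneg (u + u')]
    linarith
  have hpar : ‖u - u'‖ ^ 2 + ‖u + u'‖ ^ 2 = 4 := by
    have := parallelogram_law_with_norm ℝ u u'
    rw [hu, hu'] at this
    nlinarith
  have h7 : ‖u - u'‖ ^ 2 ≤ 8 * τ := by
    by_cases h8 : τ ≤ 1
    · have h9 : (2 - 2 * τ) ^ 2 ≤ ‖u + u'‖ ^ 2 := by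
        have : 0 ≤ 2 - 2 * τ := by linarith
        nlinarith
      nlinarith
    · nlinarith [sq_nonneg ‖u + u'‖]
  exact Real.le_sqrt_of_sq_le h7

theorem t_DIR : S_DIR := by
  intro K h τ S hK hh hτ hS
  have hKr : (0 : ℝ) < K := by exact_mod_cast hK
  rcases S.eq_empty_or_nonempty with rfl | hne
  · simp
    positivity
  set k₀ := S.min' hne with hk₀
  have hk₀S : k₀ ∈ S := S.min'_mem hne
  have hsub : S ⊆ Finset.Icc k₀ (k₀ + ⌊(K : ℝ) * Real.sqrt (8 * τ)⌋₊) := by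
    intro k hk
    have hle : k₀ ≤ k := S.min'_le k hk
    rw [Finset.mem_Icc]
    refine ⟨hle, ?_⟩
    obtain ⟨hk1, hk2⟩ := hS k hk
    obtain ⟨hk3, hk4⟩ := hS k₀ hk₀S
    have hu : ∀ k : ℕ, k < K → 0 ≤ (k : ℝ) / K ∧ (k : ℝ) / K ≤ 1 := by
      intro k hk
      have : (k : ℝ) ≤ K := by exact_mod_cast hk.le
      exact ⟨by positivity, by rw [div_le_one hKr]; exact this⟩
    have h1 := uv_near h _ _ τ hh hτ (norm_uv _) (norm_uv _) hk2 hk4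
    have h2 := uv_dist _ _ (hu k hk1).1 (hu k hk1).2 (hu k₀ hk3).1 (hu k₀ hk3).2
    have h3 : (k : ℝ) / K - (k₀ : ℝ) / K ≤ Real.sqrt (8 * τ) :=
      (le_abs_self _).trans (h2.trans h1)
    have h4 : (k : ℝ) - k₀ ≤ K * Real.sqrt (8 * τ) := by
      have : (k : ℝ) / K - (k₀ : ℝ) / K = ((k : ℝ) - k₀) / K := by ring
      rw [this, div_le_iff₀ hKr] at h3
      linarith
    have h5 : ((k - k₀ : ℕ) : ℝ) ≤ K * Real.sqrt (8 * τ) := by
      rw [Nat.cast_sub hle]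
      exact h4
    have h6 := Nat.le_floor h5
    omega
  have h1 : S.card ≤ ⌊(K : ℝ) * Real.sqrt (8 * τ)⌋₊ + 1 := by
    refine (Finset.card_le_card hsub).trans ?_
    rw [Nat.card_Icc]
    omega
  have h2 : (S.card : ℝ) ≤ ⌊(K : ℝ) * Real.sqrt (8 * τ)⌋₊ + 1 := by exact_mod_cast h1
  have h3 := Nat.floor_le (show 0 ≤ (K : ℝ) * Real.sqrt (8 * τ) by positivity)
  linarith

end Pool.Agent.Y398.KZN
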