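import Pool.Agent.Y398.KZ.SEQ

/-!
KZN-LAT.
-/

namespace Pool.Agent.Y398.KZN

open scoped ComplexConjugate

theorem card_int_near (c r : ℝ) (hr : 0 ≤ r) (T : Finset ℤ) (hT : ∀ a ∈ T, |c - a| ≤ r) :
    (T.card : ℝ) ≤ 2 * r + 1 := by
  have hsub : T ⊆ Finset.Icc ⌈c - r⌉ ⌊c + r⌋ := by
    intro a ha
    have h := abs_le.1 (hT a ha)
    rw [Finset.mem_Icc, Int.ceil_le, Int.le_floor]
    constructor <;> linarith
  have h1 := Finset.card_le_card hsub
  rw [Int.card_Icc] at h1
  rcases le_total 0 (⌊c + r⌋ + 1 - ⌈c - r⌉) with h2 | h2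
  · have h3 : ((⌊c + r⌋ + 1 - ⌈c - r⌉).toNat : ℤ) = ⌊c + r⌋ + 1 - ⌈c - r⌉ := Int.toNat_of_nonneg h2
    have h4 : (T.card : ℤ) ≤ ⌊c + r⌋ + 1 - ⌈c - r⌉ := by
      rw [← h3]
      exact_mod_cast h1
    have h5 : (T.card : ℝ) ≤ ((⌊c + r⌋ + 1 - ⌈c - r⌉ : ℤ) : ℝ) := by exact_mod_cast h4
    push_cast at h5
    have h6 := Int.floor_le (c + r)
    have h7 := Int.le_ceil (c - r)
    linarith
  · rw [Int.toNat_of_nonpos h2] at h1
    have h3 : (T.card : ℝ) ≤ 0 := by exact_mod_cast h1
    linarith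

/-- The counting, with one coordinate as a parameter. -/
theorem lat_aux (S : Finset (ℤ × ℤ)) (π ρ : ℤ × ℤ → ℤ)
    (hπρ : ∀ z z', π z = π z' → ρ z = ρ z' → z = z') (α β c₀ : ℝ) (hα : 1 ≤ α) (hβ : 1 ≤ β)
    (h1 : ∀ z ∈ S, |c₀ - π z| ≤ 2 * β) (c : ℤ → ℝ) (h2 : ∀ z ∈ S, |c (π z) - ρ z| ≤ 2 * α) :
    (S.card : ℝ) ≤ 25 * α * β := by
  classical
  have hfib : ∀ a ∈ S.image π, (S.filter (fun z => π z = a)).card ≤ ⌊5 * α⌋₊ := by
    intro a _
    refine Nat.le_floor ?_
    have hinj : Set.InjOn ρ (S.filter (fun z => π z = a) : Finset (ℤ × ℤ)) := by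
      intro z hz z' hz' h
      rw [Finset.mem_coe, Finset.mem_filter] at hz hz'
      exact hπρ z z' (hz.2.trans hz'.2.symm) h
    rw [← Finset.card_image_of_injOn hinj]
    have h3 := card_int_near (c a) (2 * α) (by linarith)
      ((S.filter (fun z => π z = a)).image ρ) (by
        intro b hb
        rw [Finset.mem_image] at hb
        obtain ⟨z, hz, rfl⟩ := hb
        rw [Finset.mem_filter] at hz
        rw [← hz.2]
        exact h2 z hz.1)
    linarith
  have h4 := Finset.card_le_mul_card_image S _ hfib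
  have h5 := card_int_near c₀ (2 * β) (by linarith) (S.image π) (by
    intro b hb
    rw [Finset.mem_image] at hb
    obtain ⟨z, hz, rfl⟩ := hb
    exact h1 z hz)
  have h6 : (S.card : ℝ) ≤ (⌊5 * α⌋₊ : ℝ) * ((S.image π).card : ℝ) := by exact_mod_cast h4
  have h7 := Nat.floor_le (show 0 ≤ 5 * α by linarith)
  have h8 : ((S.image π).card : ℝ) ≤ 5 * β := by linarith
  calc (S.card : ℝ) ≤ (⌊5 * α⌋₊ : ℝ) * ((S.image π).card : ℝ) := h6
    _ ≤ (5 * α) * (5 * β) := by gcongr
    _ = 25 * α * β := by ring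

theorem re'_eq (z u : ℂ) : re' z u = z.re * u.re + z.im * u.im := by
  unfold re'
  rw [Complex.mul_re, Complex.conj_re, Complex.conj_im]
  ring

theorem im'_eq (z u : ℂ) : im' z u = z.im * u.re - z.re * u.im := by
  unfold im'
  rw [Complex.mul_im, Complex.conj_re, Complex.conj_im]
  ring

theorem t_LAT : S_LAT := by
  intro p u α β S hu hα hαβ hS
  have hβ : 1 ≤ β := hα.trans hαβ
  have husq : u.re ^ 2 + u.im ^ 2 = 1 := by
    have h1 := Complex.normSq_eq_norm_sq u
    rw [hu, Complex.normSq_apply] at h1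
    nlinarith
  have hur : |u.re| ≤ 1 := by rw [← hu]; exact Complex.abs_re_le_norm u
  have hui : |u.im| ≤ 1 := by rw [← hu]; exact Complex.abs_im_le_norm u
  have hcoord : ∀ z ∈ S, |p.re - z.1| ≤ 2 * β ∧ |p.im - z.2| ≤ 2 * β := by
    intro z hz
    obtain ⟨h1, h2⟩ := hS z hz
    have e1 : p.re - z.1 = re' (p - lp z) u * u.re - im' (p - lp z) u * u.im := by
      rw [re'_eq, im'_eq]
      have : (p - lp z).re = p.re - z.1 := rfl
      have h3 : (p - lp z).im = p.im - z.2 := rfl
      rw [this, h3]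
      linear_combination (-(p.re - z.1)) * husq
    have e2 : p.im - z.2 = re' (p - lp z) u * u.im + im' (p - lp z) u * u.re := by
      rw [re'_eq, im'_eq]
      have : (p - lp z).re = p.re - z.1 := rfl
      have h3 : (p - lp z).im = p.im - z.2 := rfl
      rw [this, h3]
      linear_combination (-(p.im - z.2)) * husq
    constructor
    · rw [e1]
      refine (abs_sub _ _).trans ?_
      rw [abs_mul, abs_mul]
      have := mul_le_mul h1 hur (abs_nonneg _) (by linarith)
      have := mul_le_mul h2 hui (abs_nonneg _) (by linarith)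
      linarith
    · rw [e2]
      refine (abs_add_le _ _).trans ?_
      rw [abs_mul, abs_mul]
      have := mul_le_mul h1 hui (abs_nonneg _) (by linarith)
      have := mul_le_mul h2 hur (abs_nonneg _) (by linarith)
      linarith
  have hre : ∀ z ∈ S, |(p.re - z.1) * u.re + (p.im - z.2) * u.im| ≤ α := by
    intro z hz
    have := (hS z hz).1
    rw [re'_eq] at this
    exact this
  have hcase : 1 / 2 ≤ |u.re| ∨ 1 / 2 ≤ |u.im| := by
    by_contra hcon
    push Not at hcon
    have h1 : u.re ^ 2 ≤ 1 / 4 := by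
      rw [← sq_abs]
      nlinarith [abs_nonneg u.re]
    have h2 : u.im ^ 2 ≤ 1 / 4 := by
      rw [← sq_abs]
      nlinarith [abs_nonneg u.im]
    linarith
  rcases hcase with hc | hc
  · have hu0 : u.re ≠ 0 := by
      intro h
      rw [h] at hc
      norm_num at hc
    refine lat_aux S Prod.snd Prod.fst (fun z z' h h' => Prod.ext h' h) α β p.im hα hβ
      (fun z hz => (hcoord z hz).2) (fun b => p.re + (p.im - b) * u.im / u.re) ?_
    intro z hz
    have h1 := hre z hz
    have e : (p.re + (p.im - z.2) * u.im / u.re) - z.1 =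
        ((p.re - z.1) * u.re + (p.im - z.2) * u.im) / u.re := by
      field_simp
      ring
    rw [e, abs_div, div_le_iff₀ (abs_pos.2 hu0)]
    nlinarith
  · have hu0 : u.im ≠ 0 := by
      intro h
      rw [h] at hc
      norm_num at hc
    refine lat_aux S Prod.fst Prod.snd (fun z z' h h' => Prod.ext h h') α β p.re hα hβ
      (fun z hz => (hcoord z hz).1) (fun b => p.im + (p.re - b) * u.re / u.im) ?_
    intro z hz
    have h1 := hre z hz
    have e : (p.im + (p.re - z.1) * u.re / u.im) - z.2 =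
        ((p.re - z.1) * u.re + (p.im - z.2) * u.im) / u.im := by
      field_simp
      ring
    rw [e, abs_div, div_le_iff₀ (abs_pos.2 hu0)]
    nlinarith

end Pool.Agent.Y398.KZN
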