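import Pool.Agent.Y398.KZ.Stm2

/-!
KZN-SEQ and KZN-PATHS.
-/

namespace Pool.Agent.Y398.KZN

open scoped ComplexConjugate

theorem re'_add (z z' u : ℂ) : re' (z + z') u = re' z u + re' z' u := by
  unfold re'
  rw [add_mul, Complex.add_re]

theorem im'_add (z z' u : ℂ) : im' (z + z') u = im' z u + im' z' u := by
  unfold im'
  rw [add_mul, Complex.add_im]

theorem re'_sub (z z' u : ℂ) : re' (z - z') u = re' z u - re' z' u := by
  unfold re'
  rw [sub_mul, Complex.sub_re]

theorem im'_sub (z z' u : ℂ) : im' (z - z') u = im' z u - im' z' u := by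
  unfold im'
  rw [sub_mul, Complex.sub_im]

theorem sq_add_sq (z u : ℂ) (hu : ‖u‖ = 1) : re' z u ^ 2 + im' z u ^ 2 = ‖z‖ ^ 2 := by
  have h : ‖z * conj u‖ = ‖z‖ := by rw [norm_mul, Complex.norm_conj, hu, mul_one]
  rw [← h, ← Complex.normSq_eq_norm_sq, Complex.normSq_apply]
  unfold re' im'
  ring

theorem abs_re'_le (z u : ℂ) (hu : ‖u‖ = 1) : |re' z u| ≤ ‖z‖ := by
  have h : ‖z * conj u‖ = ‖z‖ := by rw [norm_mul, Complex.norm_conj, hu, mul_one]
  rw [← h]
  exact Complex.abs_re_le_norm _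

theorem abs_im'_le (z u : ℂ) (hu : ‖u‖ = 1) : |im' z u| ≤ ‖z‖ := by
  have h : ‖z * conj u‖ = ‖z‖ := by rw [norm_mul, Complex.norm_conj, hu, mul_one]
  rw [← h]
  exact Complex.abs_im_le_norm _

theorem t_SEQ : S_SEQ := by
  intro p n u L hu hstep hL
  have hnn : ∀ i < n, 0 ≤ 1 - re' (p (i + 1) - p i) u := by
    intro i hi
    have h1 := abs_le.1 ((abs_re'_le _ u hu).trans (hstep i hi))
    linarith
  have htel : ∀ m : ℕ, ∑ i ∈ Finset.range m, (1 - re' (p (i + 1) - p i) u) =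
      m - re' (p m - p 0) u := by
    intro m
    induction m with
    | zero => simp [re']
    | succ m ih =>
      rw [Finset.sum_range_succ, ih]
      have h1 : p (m + 1) - p 0 = (p (m + 1) - p m) + (p m - p 0) := by ring
      rw [h1, re'_add]
      push_cast
      ring
  have hpart : ∀ m ≤ n, ∑ i ∈ Finset.range m, (1 - re' (p (i + 1) - p i) u) ≤ L := by
    intro m hm
    have h1 : ∑ i ∈ Finset.range m, (1 - re' (p (i + 1) - p i) u) ≤
        ∑ i ∈ Finset.range n, (1 - re' (p (i + 1) - p i) u) := by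
      refine Finset.sum_le_sum_of_subset_of_nonneg (Finset.range_mono hm) ?_
      intro i hi _
      exact hnn i (Finset.mem_range.1 hi)
    rw [htel n] at h1
    linarith
  have hnn' : ∀ m ≤ n, 0 ≤ ∑ i ∈ Finset.range m, (1 - re' (p (i + 1) - p i) u) := by
    intro m hm
    refine Finset.sum_nonneg ?_
    intro i hi
    exact hnn i (lt_of_lt_of_le (Finset.mem_range.1 hi) hm)
  refine ⟨hpart n le_rfl, hnn, ?_⟩
  intro i hi
  have h1 := hpart i hi
  have h2 := hnn' i hi
  rw [htel i] at h1 h2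
  refine ⟨by linarith, by linarith, ?_⟩
  have him : im' (p i - p 0) u = ∑ k ∈ Finset.range i, im' (p (k + 1) - p k) u := by
    clear hi h1 h2
    induction i with
    | zero => simp [im']
    | succ m ih =>
      rw [Finset.sum_range_succ, ← ih]
      have h1 : p (m + 1) - p 0 = (p m - p 0) + (p (m + 1) - p m) := by ring
      rw [h1, im'_add]
  rw [him]
  refine (sq_sum_le_card_mul_sum_sq).trans ?_
  rw [Finset.card_range]
  have h3 : ∑ k ∈ Finset.range i, im' (p (k + 1) - p k) u ^ 2 ≤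
      ∑ k ∈ Finset.range i, 2 * (1 - re' (p (k + 1) - p k) u) := by
    refine Finset.sum_le_sum ?_
    intro k hk
    have hk' := lt_of_lt_of_le (Finset.mem_range.1 hk) hi
    have h4 := sq_add_sq (p (k + 1) - p k) u hu
    have h5 := hstep k hk'
    have h6 := hnn k hk'
    have h7 := norm_nonneg (p (k + 1) - p k)
    have h8 : ‖p (k + 1) - p k‖ ^ 2 ≤ 1 := by nlinarith
    have h9 := abs_le.1 ((abs_re'_le _ u hu).trans (hstep k hk'))
    nlinarith
  rw [← Finset.mul_sum, htel i] at h3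
  have h4 : (0 : ℝ) ≤ i := by positivity
  have h5 := h1
  nlinarith

theorem norm_uv (t : ℝ) : ‖uv t‖ = 1 := by
  have h : ‖uv t‖ ^ 2 = 1 := by
    rw [← Complex.normSq_eq_norm_sq, Complex.normSq_apply]
    unfold uv
    have : (1 + t ^ 2 : ℝ) ≠ 0 := by positivity
    field_simp
    ring
  have h0 := norm_nonneg (uv t)
  nlinarith

theorem re'_self (u : ℂ) (hu : ‖u‖ = 1) (c : ℝ) : re' (c * u) u = c := by
  unfold re'
  rw [mul_assoc, Complex.mul_conj, Complex.normSq_eq_norm_sq, hu]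
  simp

theorem im'_self (u : ℂ) (hu : ‖u‖ = 1) (c : ℝ) : im' (c * u) u = 0 := by
  unfold im'
  rw [mul_assoc, Complex.mul_conj, Complex.normSq_eq_norm_sq, hu]
  simp

theorem t_PATHS : S_PATHS := by
  intro V G f R E Δ J K hyp hK hE hR
  classical
  obtain ⟨conn, lip, one_le_E, two_le, deg, net, upper⟩ := hyp
  have hJ0 : (0 : ℝ) < 4 ^ J := by positivity
  have key : ∀ (z : ℤ × ℤ) (k : ℕ),
      z ∈ Finset.Ico (0 : ℤ) (4 ^ (J + 2)) ×ˢ Finset.Ico (0 : ℤ) (4 ^ (J + 2)) → k < K →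
      ∃ γ : ℕ → V, (∀ i < 2 * 4 ^ J, G.Adj (γ i) (γ (i + 1))) ∧
        (∀ i < 2 * 4 ^ J, 0 ≤ 1 - re' (f (γ (i + 1)) - f (γ i)) (uv (k / K))) ∧
        (∑ i ∈ Finset.range (2 * 4 ^ J), (1 - re' (f (γ (i + 1)) - f (γ i)) (uv (k / K)))
          ≤ 5 * E) ∧
        ∀ i ≤ 2 * 4 ^ J, |re' (f (γ i) - lp z) (uv (k / K)) - i| ≤ 6 * E ∧
          |im' (f (γ i) - lp z) (uv (k / K))| ≤ Real.sqrt (10 * E * i) + E := by
    intro z k hz hk
    set u := uv (k / K) with hu'
    have hu : ‖u‖ = 1 := norm_uv _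
    rw [Finset.mem_product, Finset.mem_Ico, Finset.mem_Ico] at hz
    obtain ⟨⟨hz1, hz2⟩, hz3, hz4⟩ := hz
    have e1 : (0 : ℝ) ≤ (z.1 : ℝ) := by exact_mod_cast hz1
    have e2 : (z.1 : ℝ) ≤ 16 * 4 ^ J := by
      have : (z.1 : ℝ) < ((4 ^ (J + 2) : ℤ) : ℝ) := by exact_mod_cast hz2
      push_cast at this
      rw [pow_add] at this
      linarith
    have e3 : (0 : ℝ) ≤ (z.2 : ℝ) := by exact_mod_cast hz3
    have e4 : (z.2 : ℝ) ≤ 16 * 4 ^ J := by
      have : (z.2 : ℝ) < ((4 ^ (J + 2) : ℤ) : ℝ) := by exact_mod_cast hz4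
      push_cast at this
      rw [pow_add] at this
      linarith
    have hlp : ‖lp z‖ ≤ 32 * 4 ^ J := by
      have h := Complex.norm_le_abs_re_add_abs_im (lp z)
      have h1 : (lp z).re = z.1 := rfl
      have h2 : (lp z).im = z.2 := rfl
      rw [h1, h2, abs_of_nonneg e1, abs_of_nonneg e3] at h
      linarith
    have hlpR : ‖lp z‖ ≤ R := by linarith
    set Du : ℂ := ((4 * 4 ^ J : ℝ) : ℂ) * u with hDu
    have hDun : ‖Du‖ = 4 * 4 ^ J := by
      rw [hDu, norm_mul, hu, mul_one, Complex.norm_real, Real.norm_eq_abs, abs_of_pos (by positivity)]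
    have hyR : ‖lp z + Du‖ ≤ 36 * 4 ^ J := by
      refine (norm_add_le _ _).trans ?_
      rw [hDun]
      linarith
    obtain ⟨x, hx⟩ := net (lp z) hlpR
    obtain ⟨y, hy⟩ := net (lp z + Du) (by linarith)
    have hxn : ‖f x‖ ≤ R := by
      have h1 := norm_le_norm_add_norm_sub' (f x) (lp z)
      linarith
    have hyn : ‖f y‖ ≤ R := by
      have h1 := norm_le_norm_add_norm_sub' (f y) (lp z + Du)
      linarith
    have hd : f y - f x = Du + ((f y - (lp z + Du)) - (f x - lp z)) := by ring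
    have herr : ‖(f y - (lp z + Du)) - (f x - lp z)‖ ≤ 2 * E := by
      refine (norm_sub_le _ _).trans ?_
      linarith
    have hdu : ‖f y - f x‖ ≤ 4 * 4 ^ J + 2 * E := by
      rw [hd]
      refine (norm_add_le _ _).trans ?_
      rw [hDun]
      linarith
    have hre : 4 * 4 ^ J - 2 * E ≤ re' (f y - f x) u := by
      rw [hd, re'_add, hDu, re'_self u hu]
      have h1 := abs_le.1 ((abs_re'_le _ u hu).trans herr)
      linarith
    have hup := upper x y hxn hyn
    rw [norm_sub_rev] at hup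
    have hlo : 4 * 4 ^ J - 2 * E ≤ (G.dist x y : ℝ) := by
      have h1 := lip x y
      rw [norm_sub_rev] at h1
      have h2 := (le_abs_self _).trans (abs_re'_le (f y - f x) u hu)
      linarith
    have hn2 : 2 * 4 ^ J ≤ G.dist x y := by
      have : ((2 * 4 ^ J : ℕ) : ℝ) ≤ (G.dist x y : ℝ) := by
        push_cast
        linarith
      exact_mod_cast this
    obtain ⟨p, hp⟩ := conn.exists_walk_length_eq_dist x y
    have hγ0 : p.getVert 0 = x := p.getVert_zero
    have hγn : p.getVert (G.dist x y) = y := by rw [← hp]; exact p.getVert_length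
    have hadj : ∀ i < G.dist x y, G.Adj (p.getVert i) (p.getVert (i + 1)) := by
      intro i hi
      exact p.adj_getVert_succ (by rw [hp]; exact hi)
    have hstep : ∀ i < G.dist x y, ‖f (p.getVert (i + 1)) - f (p.getVert i)‖ ≤ 1 := by
      intro i hi
      have h1 := lip (p.getVert (i + 1)) (p.getVert i)
      have h2 : G.dist (p.getVert (i + 1)) (p.getVert i) = 1 :=
        SimpleGraph.dist_eq_one_iff_adj.2 (hadj i hi).symm
      rw [h2] at h1
      simpa using h1
    have hseq := t_SEQ (fun i => f (p.getVert i)) (G.dist x y) u (5 * E) hu hstep (by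
      simp only [hγ0, hγn]
      linarith)
    simp only [hγ0] at hseq
    obtain ⟨hs1, hs2, hs3⟩ := hseq
    refine ⟨p.getVert, fun i hi => hadj i (hi.trans_le hn2), fun i hi => hs2 i (hi.trans_le hn2),
      ?_, ?_⟩
    · refine le_trans (Finset.sum_le_sum_of_subset_of_nonneg (Finset.range_mono hn2) ?_) hs1
      intro i hi _
      exact hs2 i (Finset.mem_range.1 hi)
    · intro i hi
      obtain ⟨h1, h2, h3⟩ := hs3 i (hi.trans hn2)
      have hsplit : f (p.getVert i) - lp z = (f (p.getVert i) - f x) + (f x - lp z) := by ring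
      have h4 := abs_le.1 ((abs_re'_le (f x - lp z) u hu).trans hx)
      have h5 := (abs_im'_le (f x - lp z) u hu).trans hx
      rw [hsplit, re'_add, im'_add]
      constructor
      · rw [abs_le]
        constructor <;> linarith
      · refine (abs_add_le _ _).trans ?_
        have h6 : |im' (f (p.getVert i) - f x) u| ≤ Real.sqrt (10 * E * i) := by
          refine Real.abs_le_sqrt ?_
          linarith
        linarith
  have hne : Nonempty V := by
    obtain ⟨x, -⟩ := net 0 (by rw [norm_zero]; linarith)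
    exact ⟨x⟩
  have key' : ∀ (z : ℤ × ℤ) (k : ℕ), ∃ γ : ℕ → V,
      z ∈ Finset.Ico (0 : ℤ) (4 ^ (J + 2)) ×ˢ Finset.Ico (0 : ℤ) (4 ^ (J + 2)) → k < K →
      (∀ i < 2 * 4 ^ J, G.Adj (γ i) (γ (i + 1))) ∧
        (∀ i < 2 * 4 ^ J, 0 ≤ 1 - re' (f (γ (i + 1)) - f (γ i)) (uv (k / K))) ∧
        (∑ i ∈ Finset.range (2 * 4 ^ J), (1 - re' (f (γ (i + 1)) - f (γ i)) (uv (k / K)))
          ≤ 5 * E) ∧
        ∀ i ≤ 2 * 4 ^ J, |re' (f (γ i) - lp z) (uv (k / K)) - i| ≤ 6 * E ∧
          |im' (f (γ i) - lp z) (uv (k / K))| ≤ Real.sqrt (10 * E * i) + E := by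
    intro z k
    by_cases h : z ∈ Finset.Ico (0 : ℤ) (4 ^ (J + 2)) ×ˢ Finset.Ico (0 : ℤ) (4 ^ (J + 2)) ∧ k < K
    · obtain ⟨γ, hγ⟩ := key z k h.1 h.2
      exact ⟨γ, fun _ _ => hγ⟩
    · exact ⟨fun _ => hne.some, fun h1 h2 => absurd ⟨h1, h2⟩ h⟩
  choose γ hγ using key'
  exact ⟨γ, fun z hz k hk => hγ z k hz hk⟩

end Pool.Agent.Y398.KZN
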