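import Pool.Agent.Y398.KZ.Res
import Pool.Agent.Y398.KZ.SEQ
import Pool.Agent.Y398.KZ.DIR
import Pool.Agent.Y398.KZ.LAT
import Pool.Agent.Y398.KZ.CELL
import Pool.Agent.Y385.KZ.MAINN
import Pool.Agent.Y805.KZ.SCALE
import Pool.Agent.Y805.KZ.FIN

/-!
All parts of project KZN together.
-/

namespace Pool.Agent.Y398.KZN

theorem all_LOWER : S_LOWER := Pool.Agent.Y805.KZN.t_LOWER (Pool.Agent.Y385.KZN.t_MAINN
  t_LAT t_DIR t_CELL t_PATHS Pool.Agent.Y805.KZN.t_SCALE)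

end Pool.Agent.Y398.KZN
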