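import Pool.Agent.Y398.KZ.Stm

/-!
Abstract assembly: road graph with trees attached.
-/

namespace Pool.Agent.Y398.KZ

/-- The lattice point with the given coordinates. -/
def lp (z : ℤ × ℤ) : ℂ := ⟨(z.1 : ℝ), (z.2 : ℝ)⟩

/-- Data for the assembly. -/
structure Dat where
  R : Type
  E : R → R → Prop
  P : R → ℂ
  cell : R → ℤ × ℤ
  lab : R → ℕ
  M : ℤ × ℤ → ℕ
  Sz : ℤ × ℤ → ℕ
  Del : ℕ
  M_two : ∀ z, 2 ≤ M z
  E_symm : ∀ v v', E v v' → E v' v
  E_disp : ∀ v v', E v v' → ‖P v - P v'‖ ≤ 1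
  E_fin : ∀ v, {v' | E v v'}.Finite
  E_deg : ∀ v, {v' | E v v'}.ncard ≤ Del
  near : ∀ v, ‖P v - lp (cell v)‖ ≤ 1
  lab_inj : ∀ v v', cell v = cell v' → lab v = lab v' → v = v'
  lab_le : ∀ v, lab v ≤ Sz (cell v)

namespace Dat

variable (D : Dat)

/-- Tree vertices. -/
abbrev Tv : Type := {d : (ℤ × ℤ) × ℕ // d.2 ≤ D.Sz d.1}

/-- The relation between tree vertices: parent to child, or neighbouring roots. -/
def rT (d d' : D.Tv) : Prop :=
  (d.1.1 = d'.1.1 ∧ 1 ≤ d'.1.2 ∧ d.1.2 = (d'.1.2 - 1) / D.M d'.1.1) ∨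
    (d.1.2 = 0 ∧ d'.1.2 = 0 ∧
      (d'.1.1 = (d.1.1.1 + 1, d.1.1.2) ∨ d'.1.1 = (d.1.1.1, d.1.1.2 + 1)))

/-- The relation which generates the graph. -/
def rel : D.R ⊕ D.Tv → D.R ⊕ D.Tv → Prop
  | Sum.inl v, Sum.inl v' => D.E v v'
  | Sum.inl v, Sum.inr d => d.1 = (D.cell v, D.lab v)
  | Sum.inr _, Sum.inl _ => False
  | Sum.inr d, Sum.inr d' => D.rT d d'

/-- The graph. -/
def G : SimpleGraph (D.R ⊕ D.Tv) := SimpleGraph.fromRel D.rel

/-- The map to the plane. -/
def f : D.R ⊕ D.Tv → ℂ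
  | Sum.inl v => D.P v
  | Sum.inr d => lp d.1.1

/-- The cell of a vertex. -/
def cl : D.R ⊕ D.Tv → ℤ × ℤ
  | Sum.inl v => D.cell v
  | Sum.inr d => d.1.1

/-- The root of a cell. -/
def rootv (z : ℤ × ℤ) : D.R ⊕ D.Tv := Sum.inr ⟨(z, 0), Nat.zero_le _⟩

theorem adj_iff (a b : D.R ⊕ D.Tv) : D.G.Adj a b ↔ a ≠ b ∧ (D.rel a b ∨ D.rel b a) := by
  unfold G
  exact SimpleGraph.fromRel_adj _ _ _

theorem norm_lp_sub_le (z z' : ℤ × ℤ) :
    ‖lp z - lp z'‖ ≤ |(z.1 : ℝ) - z'.1| + |(z.2 : ℝ) - z'.2| := by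
  have := Complex.norm_le_abs_re_add_abs_im (lp z - lp z')
  simpa [lp] using this

theorem f_near (a : D.R ⊕ D.Tv) : ‖D.f a - lp (D.cl a)‖ ≤ 1 := by
  cases a with
  | inl v => exact D.near v
  | inr d => simp [f, cl]

theorem rel_disp (a b : D.R ⊕ D.Tv) (h : D.rel a b) : ‖D.f a - D.f b‖ ≤ 1 := by
  rcases a with v | d <;> rcases b with v' | d'
  · exact D.E_disp v v' h
  · have h' : d'.1 = (D.cell v, D.lab v) := h
    have := D.near v
    simp only [f]
    rw [h']
    exact this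
  · exact h.elim
  · rcases h with ⟨h1, -, -⟩ | ⟨-, -, h1 | h1⟩
    · simp only [f]
      rw [h1]
      simp
    · simp only [f]
      refine (norm_lp_sub_le _ _).trans ?_
      rw [h1]
      simp
    · simp only [f]
      refine (norm_lp_sub_le _ _).trans ?_
      rw [h1]
      simp

theorem adj_disp (a b : D.R ⊕ D.Tv) (h : D.G.Adj a b) : ‖D.f a - D.f b‖ ≤ 1 := by
  rw [adj_iff] at h
  rcases h.2 with h | h
  · exact D.rel_disp a b h
  · rw [norm_sub_rev]
    exact D.rel_disp b a h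

theorem walk_disp {a b : D.R ⊕ D.Tv} (p : D.G.Walk a b) : ‖D.f a - D.f b‖ ≤ p.length := by
  induction p with
  | nil => simp
  | cons h p ih =>
    rename_i u v w'
    have h1 := D.adj_disp _ _ h
    have h2 : ‖D.f u - D.f w'‖ ≤ ‖D.f u - D.f v‖ + ‖D.f v - D.f w'‖ := norm_sub_le_norm_sub_add_norm_sub _ _ _
    rw [SimpleGraph.Walk.length_cons]
    push_cast
    linarith

/-- There is a walk of length at most `n`. -/
def Wk (n : ℕ) (a b : D.R ⊕ D.Tv) : Prop := ∃ p : D.G.Walk a b, p.length ≤ n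

theorem Wk.refl (a : D.R ⊕ D.Tv) : D.Wk 0 a a := ⟨SimpleGraph.Walk.nil, by simp⟩

variable {D}

theorem Wk.mono {n m : ℕ} {a b : D.R ⊕ D.Tv} (h : D.Wk n a b) (hnm : n ≤ m) : D.Wk m a b := by
  obtain ⟨p, hp⟩ := h
  exact ⟨p, hp.trans hnm⟩

theorem Wk.trans {n m : ℕ} {a b c : D.R ⊕ D.Tv} (h : D.Wk n a b) (h' : D.Wk m b c) :
    D.Wk (n + m) a c := by
  obtain ⟨p, hp⟩ := h
  obtain ⟨p', hp'⟩ := h'
  refine ⟨p.append p', ?_⟩
  rw [SimpleGraph.Walk.length_append]
  omega

theorem Wk.symm {n : ℕ} {a b : D.R ⊕ D.Tv} (h : D.Wk n a b) : D.Wk n b a := by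
  obtain ⟨p, hp⟩ := h
  exact ⟨p.reverse, by rw [SimpleGraph.Walk.length_reverse]; exact hp⟩

theorem Wk.of_rel {a b : D.R ⊕ D.Tv} (h : D.rel a b) : D.Wk 1 a b := by
  by_cases hab : a = b
  · subst hab
    exact (Wk.refl D a).mono (by norm_num)
  · have h' : D.G.Adj a b := (D.adj_iff a b).2 ⟨hab, Or.inl h⟩
    exact ⟨SimpleGraph.Walk.cons h' SimpleGraph.Walk.nil, by simp⟩

theorem Wk.reach {n : ℕ} {a b : D.R ⊕ D.Tv} (h : D.Wk n a b) : D.G.Reachable a b := by
  obtain ⟨p, -⟩ := h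
  exact ⟨p⟩

theorem Wk.dist_le {n : ℕ} {a b : D.R ⊕ D.Tv} (h : D.Wk n a b) : D.G.dist a b ≤ n := by
  obtain ⟨p, hp⟩ := h
  exact (SimpleGraph.dist_le p).trans hp

variable (D)

/-- Down the tree. -/
theorem wk_tree (z : ℤ × ℤ) : ∀ (d n : ℕ) (hn : n ≤ D.Sz z), n < (D.M z) ^ d →
    D.Wk d (Sum.inr ⟨(z, n), hn⟩) (D.rootv z) := by
  intro d
  induction d with
  | zero =>
    intro n hn h
    have h0 : n = 0 := by simpa using h
    subst h0
    exact Wk.refl D _
  | succ d ih =>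
    intro n hn h
    rcases Nat.eq_zero_or_pos n with h0 | h0
    · subst h0
      exact (Wk.refl D _).mono (Nat.zero_le _)
    · have hM := D.M_two z
      have hlt : (n - 1) / D.M z < (D.M z) ^ d := by
        rw [Nat.div_lt_iff_lt_mul (by omega), ← pow_succ]
        omega
      have hle : (n - 1) / D.M z ≤ D.Sz z := (Nat.div_le_self _ _).trans (by omega)
      have h1 := ih _ hle hlt
      have h2 : D.Wk 1 (Sum.inr ⟨(z, (n - 1) / D.M z), hle⟩) (Sum.inr ⟨(z, n), hn⟩) :=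
        Wk.of_rel (Or.inl ⟨rfl, h0, rfl⟩)
      have := h2.symm.trans h1
      rwa [Nat.add_comm] at this

/-- Walk from a road vertex to the root of its cell. -/
theorem wk_road (v : D.R) (d : ℕ) (h : D.lab v < (D.M (D.cell v)) ^ d) :
    D.Wk (d + 1) (Sum.inl v) (D.rootv (D.cell v)) := by
  have h1 : D.Wk 1 (Sum.inl v) (Sum.inr ⟨(D.cell v, D.lab v), D.lab_le v⟩) := Wk.of_rel rfl
  have := h1.trans (D.wk_tree (D.cell v) d _ (D.lab_le v) h)
  rwa [Nat.add_comm] at this

/-- The depth of a vertex over the root of its cell. -/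
theorem wk_depth (a : D.R ⊕ D.Tv) (d : ℕ) (hd : D.Sz (D.cl a) + 1 ≤ (D.M (D.cl a)) ^ d) :
    D.Wk (d + 1) a (D.rootv (D.cl a)) := by
  rcases a with v | d'
  · refine D.wk_road v d ?_
    have h1 := D.lab_le v
    exact lt_of_lt_of_le (Nat.lt_succ_of_le h1) hd
  · have h2 := D.wk_tree d'.1.1 d d'.1.2 d'.2 (lt_of_lt_of_le (Nat.lt_succ_of_le d'.2) hd)
    exact h2.mono (by omega)

theorem wk_row (z : ℤ × ℤ) (k : ℕ) : D.Wk k (D.rootv z) (D.rootv (z.1 + k, z.2)) := by
  induction k with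
  | zero =>
    have : (z.1 + ((0 : ℕ) : ℤ), z.2) = z := by ext <;> simp
    rw [this]
    exact Wk.refl D _
  | succ k ih =>
    refine ih.trans (Wk.of_rel (Or.inr ⟨rfl, rfl, Or.inl ?_⟩))
    ext <;> simp
    ring

theorem wk_col (z : ℤ × ℤ) (k : ℕ) : D.Wk k (D.rootv z) (D.rootv (z.1, z.2 + k)) := by
  induction k with
  | zero =>
    have : (z.1, z.2 + ((0 : ℕ) : ℤ)) = z := by ext <;> simp
    rw [this]
    exact Wk.refl D _
  | succ k ih =>
    refine ih.trans (Wk.of_rel (Or.inr ⟨rfl, rfl, Or.inr ?_⟩))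
    ext <;> simp
    ring

theorem wk_roots (z z' : ℤ × ℤ) :
    D.Wk ((z.1 - z'.1).natAbs + (z.2 - z'.2).natAbs) (D.rootv z) (D.rootv z') := by
  have h1 : D.Wk (z.1 - z'.1).natAbs (D.rootv z) (D.rootv (z'.1, z.2)) := by
    rcases le_total z.1 z'.1 with h | h
    · have := D.wk_row z (z.1 - z'.1).natAbs
      have e : z.1 + ((z.1 - z'.1).natAbs : ℤ) = z'.1 := by omega
      rwa [e] at this
    · have := D.wk_row (z'.1, z.2) (z.1 - z'.1).natAbs
      have e : z'.1 + ((z.1 - z'.1).natAbs : ℤ) = z.1 := by omega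
      simp only [e] at this
      exact this.symm
  have h2 : D.Wk (z.2 - z'.2).natAbs (D.rootv (z'.1, z.2)) (D.rootv z') := by
    rcases le_total z.2 z'.2 with h | h
    · have := D.wk_col (z'.1, z.2) (z.2 - z'.2).natAbs
      have e : z.2 + ((z.2 - z'.2).natAbs : ℤ) = z'.2 := by omega
      simp only [e] at this
      exact this
    · have := D.wk_col z' (z.2 - z'.2).natAbs
      have e : z'.2 + ((z.2 - z'.2).natAbs : ℤ) = z.2 := by omega
      rw [e] at this
      exact this.symm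
  exact h1.trans h2

/-- The degree of a road vertex. -/
theorem deg_road (v : D.R) : (D.G.neighborSet (Sum.inl v)).Finite ∧
    (D.G.neighborSet (Sum.inl v)).ncard ≤ D.Del + 1 := by
  have hsub : D.G.neighborSet (Sum.inl v) ⊆ (Sum.inl '' {v' | D.E v v'}) ∪
      {Sum.inr ⟨(D.cell v, D.lab v), D.lab_le v⟩} := by
    intro b hb
    rw [SimpleGraph.mem_neighborSet, adj_iff] at hb
    rcases b with v' | d
    · left
      rcases hb.2 with h | h
      · exact ⟨v', h, rfl⟩
      · exact ⟨v', D.E_symm _ _ h, rfl⟩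
    · right
      rcases hb.2 with h | h
      · have h' : d.1 = (D.cell v, D.lab v) := h
        rw [Set.mem_singleton_iff]
        congr 1
        exact Subtype.ext h'
      · exact h.elim
  have hfin : ((Sum.inl '' {v' | D.E v v'}) ∪
      {Sum.inr ⟨(D.cell v, D.lab v), D.lab_le v⟩} : Set (D.R ⊕ D.Tv)).Finite :=
    ((D.E_fin v).image _).union (Set.finite_singleton _)
  refine ⟨hfin.subset hsub, (Set.ncard_le_ncard hsub hfin).trans ?_⟩
  refine (Set.ncard_union_le _ _).trans ?_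
  rw [Set.ncard_singleton]
  have := Set.ncard_image_le (f := (Sum.inl : D.R → D.R ⊕ D.Tv)) (D.E_fin v)
  have := D.E_deg v
  omega

/-- The degree of a tree vertex. -/
theorem deg_tree (d : D.Tv) : (D.G.neighborSet (Sum.inr d)).Finite ∧
    (D.G.neighborSet (Sum.inr d)).ncard ≤ D.M d.1.1 + 6 := by
  classical
  set z := d.1.1 with hz
  set n := d.1.2 with hn
  let T : Finset ((ℤ × ℤ) × ℕ) := (Finset.Icc (D.M z * n + 1) (D.M z * n + D.M z)).image
      (fun k => (z, k)) ∪ ({(z, (n - 1) / D.M z), ((z.1 + 1, z.2), 0), ((z.1 - 1, z.2), 0),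
        ((z.1, z.2 + 1), 0), ((z.1, z.2 - 1), 0)} : Finset ((ℤ × ℤ) × ℕ))
  have hT : T.card ≤ D.M z + 5 := by
    refine (Finset.card_union_le _ _).trans ?_
    refine add_le_add (Finset.card_image_le.trans ?_) Finset.card_le_five
    rw [Nat.card_Icc]
    omega
  let A : Set D.R := {v | D.cell v = z ∧ D.lab v = n}
  have hA : A.Subsingleton := by
    intro v hv v' hv'
    exact D.lab_inj v v' (hv.1.trans hv'.1.symm) (hv.2.trans hv'.2.symm)
  have hAc : A.Finite ∧ A.ncard ≤ 1 := by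
    refine ⟨hA.finite, ?_⟩
    rw [Set.ncard_le_one_iff hA.finite]
    intro a b ha hb
    exact hA ha hb
  let Bs : Set D.Tv := {d' | d'.1 ∈ T}
  have hBinj : Set.InjOn (Subtype.val : D.Tv → (ℤ × ℤ) × ℕ) Bs := Subtype.val_injective.injOn
  have hBsub : (Subtype.val '' Bs : Set ((ℤ × ℤ) × ℕ)) ⊆ (T : Set ((ℤ × ℤ) × ℕ)) := by
    rintro _ ⟨d', hd', rfl⟩
    exact hd'
  have hBfin : Bs.Finite := Set.Finite.of_finite_image (T.finite_toSet.subset hBsub) hBinj
  have hBc : Bs.ncard ≤ D.M z + 5 := by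
    rw [← hBinj.ncard_image]
    refine (Set.ncard_le_ncard hBsub T.finite_toSet).trans ?_
    rw [Set.ncard_coe_finset]
    exact hT
  have hsub : D.G.neighborSet (Sum.inr d) ⊆ (Sum.inl '' A) ∪ (Sum.inr '' Bs) := by
    intro b hb
    rw [SimpleGraph.mem_neighborSet, adj_iff] at hb
    rcases b with v' | d'
    · left
      rcases hb.2 with h | h
      · exact h.elim
      · have h' : d.1 = (D.cell v', D.lab v') := h
        refine ⟨v', ⟨?_, ?_⟩, rfl⟩
        · rw [hz, h']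
        · rw [hn, h']
    · right
      refine ⟨d', ?_, rfl⟩
      change d'.1 ∈ T
      have hMp := D.M_two z
      rw [Finset.mem_union, Finset.mem_image]
      rcases hb.2 with h | h
      · rcases h with ⟨h1, h2, h3⟩ | ⟨h1, h2, h3 | h3⟩
        · left
          refine ⟨d'.1.2, ?_, ?_⟩
          · rw [Finset.mem_Icc]
            have h4 : n = (d'.1.2 - 1) / D.M z := by rw [hn, h3, ← h1]
            have h5 := Nat.div_add_mod (d'.1.2 - 1) (D.M z)
            have h6 := Nat.mod_lt (d'.1.2 - 1) (show 0 < D.M z by omega)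
            rw [← h4] at h5
            constructor
            · omega
            · omega
          · rw [hz, h1]
        · right
          have : d'.1 = ((z.1 + 1, z.2), 0) := Prod.ext h3 h2
          rw [this]
          simp
        · right
          have : d'.1 = ((z.1, z.2 + 1), 0) := Prod.ext h3 h2
          rw [this]
          simp
      · right
        rcases h with ⟨h1, h2, h3⟩ | ⟨h1, h2, h3⟩
        · have : d'.1 = (z, (n - 1) / D.M z) := Prod.ext h1 h3
          rw [this]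
          simp
        · rcases h3 with h3 | h3
          · have h4 : d'.1.1 = (z.1 - 1, z.2) := by
              rw [hz, h3]
              ext <;> simp
            have : d'.1 = ((z.1 - 1, z.2), 0) := Prod.ext h4 h1
            rw [this]
            simp
          · have h4 : d'.1.1 = (z.1, z.2 - 1) := by
              rw [hz, h3]
              ext <;> simp
            have : d'.1 = ((z.1, z.2 - 1), 0) := Prod.ext h4 h1
            rw [this]
            simp
  have hfin : ((Sum.inl '' A) ∪ (Sum.inr '' Bs) : Set (D.R ⊕ D.Tv)).Finite :=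
    (hAc.1.image _).union (hBfin.image _)
  refine ⟨hfin.subset hsub, (Set.ncard_le_ncard hsub hfin).trans ?_⟩
  refine (Set.ncard_union_le _ _).trans ?_
  have h1 := Set.ncard_image_le (f := (Sum.inl : D.R → D.R ⊕ D.Tv)) hAc.1
  have h2 := Set.ncard_image_le (f := (Sum.inr : D.Tv → D.R ⊕ D.Tv)) hBfin
  have h3 := hAc.2
  omega

end Dat

end Pool.Agent.Y398.KZ
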