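import Pool.Agent.Y398.KZ.Asm

/-!
Construction of the graph from the roads.
-/

namespace Pool.Agent.Y398.KZ

/-- Rounding. -/
noncomputable def cellOf (z : ℂ) : ℤ × ℤ := (round z.re, round z.im)

theorem cellOf_near (z : ℂ) : ‖z - lp (cellOf z)‖ ≤ 1 := by
  have h := Complex.norm_le_abs_re_add_abs_im (z - lp (cellOf z))
  have h1 := abs_sub_round z.re
  have h2 := abs_sub_round z.im
  have e1 : (z - lp (cellOf z)).re = z.re - round z.re := rfl
  have e2 : (z - lp (cellOf z)).im = z.im - round z.im := rfl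
  rw [e1, e2] at h
  linarith

/-- Size of a cell. -/
def Xz (z : ℤ × ℤ) : ℕ := 9 * (z.1.natAbs + z.2.natAbs + 1)

/-- Largest level in a cell. -/
def Jz (z : ℤ × ℤ) : ℕ := Nat.log 8 (Xz z)

/-- The logarithm in the bounds. -/
noncomputable def Lg (z : ℂ) : ℝ := 1 + Real.log (1 + ‖z‖)

theorem one_le_Lg (z : ℂ) : 1 ≤ Lg z := by
  unfold Lg
  have := Real.log_nonneg (show (1 : ℝ) ≤ 1 + ‖z‖ by linarith [norm_nonneg z])
  linarith

theorem Lg_le (z z' : ℂ) (h : ‖z - z'‖ ≤ 1) : Lg z ≤ 2 * Lg z' := by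
  unfold Lg
  have h1 : ‖z‖ ≤ ‖z'‖ + 1 := by
    have := norm_le_norm_add_norm_sub' z z'
    linarith
  have h0 := norm_nonneg z
  have h0' := norm_nonneg z'
  have h2 : Real.log (1 + ‖z‖) ≤ Real.log (2 * (1 + ‖z'‖)) :=
    Real.log_le_log (by positivity) (by linarith)
  rw [Real.log_mul (by norm_num) (by positivity)] at h2
  have h3 : Real.log 2 ≤ 1 := by
    have := Real.log_two_lt_d9
    linarith
  have h4 := Real.log_nonneg (show (1 : ℝ) ≤ 1 + ‖z'‖ by linarith)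
  linarith

theorem Jz_le (z : ℤ × ℤ) : (Jz z : ℝ) + 1 ≤ 5 * Lg (lp z) := by
  unfold Jz
  have hX : (0 : ℝ) < (Xz z : ℝ) := by
    unfold Xz
    positivity
  have h1 : (Nat.log 8 (Xz z) : ℝ) ≤ Real.log (Xz z) := by
    have hp : (8 : ℕ) ^ (Nat.log 8 (Xz z)) ≤ Xz z := Nat.pow_log_le_self 8 (by unfold Xz; omega)
    have hp' : (8 : ℝ) ^ (Nat.log 8 (Xz z)) ≤ (Xz z : ℝ) := by exact_mod_cast hp
    have h2 := Real.log_le_log (by positivity) hp'
    rw [Real.log_pow] at h2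
    have h8 : 1 ≤ Real.log 8 := by
      rw [Real.le_log_iff_exp_le (by norm_num)]
      have := Real.exp_one_lt_d9
      linarith
    have h9 : (0 : ℝ) ≤ (Nat.log 8 (Xz z) : ℝ) := by positivity
    nlinarith
  have hn : ‖lp z‖ = ‖lp z‖ := rfl
  have ha : |(z.1 : ℝ)| ≤ ‖lp z‖ := by
    have := Complex.abs_re_le_norm (lp z)
    simpa [lp] using this
  have hb : |(z.2 : ℝ)| ≤ ‖lp z‖ := by
    have := Complex.abs_im_le_norm (lp z)
    simpa [lp] using this
  have h3 : (Xz z : ℝ) ≤ 18 * (1 + ‖lp z‖) := by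
    unfold Xz
    push_cast
    rw [Nat.cast_natAbs, Nat.cast_natAbs]
    push_cast
    linarith
  have h4 : Real.log (Xz z) ≤ Real.log 18 + Real.log (1 + ‖lp z‖) := by
    rw [← Real.log_mul (by norm_num) (by positivity)]
    exact Real.log_le_log hX h3
  have h18 : Real.log 18 ≤ 4 := by
    rw [Real.log_le_iff_le_exp (by norm_num)]
    have h := Real.add_one_le_exp (1 : ℝ)
    have h5 : Real.exp 4 = Real.exp 1 * Real.exp 1 * (Real.exp 1 * Real.exp 1) := by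
      rw [← Real.exp_add, ← Real.exp_add]; norm_num
    rw [h5]
    have h6 := Real.exp_one_gt_d9
    have h7 : 7 ≤ Real.exp 1 * Real.exp 1 := by nlinarith
    nlinarith
  have h5 := Real.log_nonneg (show (1 : ℝ) ≤ 1 + ‖lp z‖ by linarith [norm_nonneg (lp z)])
  unfold Lg
  linarith

/-- The set of valid road vertices. -/
abbrev RV : Type := {v : Rd // v.Ok}

theorem countable_Rd : Countable Rd := by
  have h : Function.Injective (fun v : Rd => (v.h, v.j, v.a, v.b, v.i)) := by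
    rintro ⟨h, j, a, b, i⟩ ⟨h', j', a', b', i'⟩ e
    simp only [Prod.mk.injEq] at e
    obtain ⟨rfl, rfl, rfl, rfl, rfl⟩ := e
    rfl
  exact h.countable

/-- What we need of the labels. -/
structure LabSpec (t : ℕ → ℤ → ℤ) (A : ℕ) (lab : RV → ℕ) : Prop where
  small : ∀ v : RV, lab v < A * (v.1.j + 1) ^ 5
  lev : ∀ v : RV, v.1.j ≤ Jz (cellOf (v.1.po t))
  inj : ∀ v v' : RV, cellOf (v.1.po t) = cellOf (v'.1.po t) → lab v = lab v' → v = v'

theorem exists_lab (hCOUNT : S_COUNT) (hLEV : S_LEV) (hLAB : S_LAB) (C : ℕ) (t : ℕ → ℤ → ℤ)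
    (hG : GoodT C t) : ∃ (A : ℕ) (lab : RV → ℕ), 1 ≤ A ∧ LabSpec t A lab := by
  obtain ⟨A, hA⟩ := hCOUNT C t hG
  have hc : Countable RV := by
    have := countable_Rd
    infer_instance
  have hyp : ∀ (z : ℤ × ℤ) (J : ℕ),
      {v : RV | cellOf (v.1.po t) = z ∧ v.1.j ≤ J}.Finite ∧
      {v : RV | cellOf (v.1.po t) = z ∧ v.1.j ≤ J}.ncard ≤ (A + 1) * (J + 1) ^ 5 := by
    intro z J
    have hinj : Set.InjOn (Subtype.val : RV → Rd) {v : RV | cellOf (v.1.po t) = z ∧ v.1.j ≤ J} :=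
      Subtype.val_injective.injOn
    obtain ⟨h1, h2⟩ := hA (lp z) J
    have hsub : Subtype.val '' {v : RV | cellOf (v.1.po t) = z ∧ v.1.j ≤ J} ⊆
        {v : Rd | v.Ok ∧ v.j ≤ J ∧ ‖v.po t - lp z‖ ≤ 1} := by
      rintro _ ⟨v, ⟨hv1, hv2⟩, rfl⟩
      refine ⟨v.2, hv2, ?_⟩
      rw [← hv1]
      exact cellOf_near _
    refine ⟨Set.Finite.of_finite_image (h1.subset hsub) hinj, ?_⟩
    rw [← hinj.ncard_image]
    refine (Set.ncard_le_ncard hsub h1).trans (h2.trans ?_)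
    gcongr
    omega
  obtain ⟨lab, hl1, hl2⟩ := hLAB RV (ℤ × ℤ) hc (fun v => cellOf (v.1.po t)) (fun v => v.1.j)
    (fun J => (A + 1) * (J + 1) ^ 5) hyp
  refine ⟨A + 1, lab, by omega, ⟨hl1, ?_, hl2⟩⟩
  intro v
  have h1 := hLEV C t hG v.1 v.2
  set z := cellOf (v.1.po t) with hz
  have h2 := cellOf_near (v.1.po t)
  rw [← hz] at h2
  have h3 : ‖v.1.po t‖ ≤ ‖lp z‖ + 1 := by
    have := norm_le_norm_add_norm_sub' (v.1.po t) (lp z)
    linarith
  have h4 : ‖lp z‖ ≤ (z.1.natAbs : ℝ) + z.2.natAbs := by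
    have := Complex.norm_le_abs_re_add_abs_im (lp z)
    rw [Nat.cast_natAbs, Nat.cast_natAbs]
    push_cast
    exact this
  have h5 : ((8 ^ v.1.j : ℕ) : ℝ) ≤ (Xz z : ℝ) := by
    unfold Xz
    push_cast
    linarith
  have h6 : 8 ^ v.1.j ≤ Xz z := by exact_mod_cast h5
  unfold Jz
  exact Nat.le_log_of_pow_le (by norm_num) h6

/-- The data of the assembly. -/
noncomputable def mkDat (t : ℕ → ℤ → ℤ) (A : ℕ) (lab : RV → ℕ) (hl : LabSpec t A lab)
    (hDISP : S_DISP) (Del : ℕ)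
    (hDEG : ∀ v : Rd, {v' : Rd | Adj t v v'}.Finite ∧ {v' : Rd | Adj t v v'}.ncard ≤ Del)
    (M : ℤ × ℤ → ℕ) (hM : ∀ z, 2 ≤ M z) : Dat where
  R := RV
  E := fun v v' => Adj t v.1 v'.1
  P := fun v => v.1.po t
  cell := fun v => cellOf (v.1.po t)
  lab := lab
  M := M
  Sz := fun z => A * (Jz z + 1) ^ 5
  Del := Del
  M_two := hM
  E_symm := fun v v' h => h.symm
  E_disp := fun v v' h => hDISP t v.1 v'.1 h
  E_fin := by
    intro v
    have hinj : Set.InjOn (Subtype.val : RV → Rd) {v' : RV | Adj t v.1 v'.1} :=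
      Subtype.val_injective.injOn
    refine Set.Finite.of_finite_image ((hDEG v.1).1.subset ?_) hinj
    rintro _ ⟨v', hv', rfl⟩
    exact hv'
  E_deg := by
    intro v
    have hinj : Set.InjOn (Subtype.val : RV → Rd) {v' : RV | Adj t v.1 v'.1} :=
      Subtype.val_injective.injOn
    rw [← hinj.ncard_image]
    refine (Set.ncard_le_ncard ?_ (hDEG v.1).1).trans (hDEG v.1).2
    rintro _ ⟨v', hv', rfl⟩
    exact hv'
  near := fun v => cellOf_near _
  lab_inj := hl.inj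
  lab_le := by
    intro v
    refine (hl.small v).le.trans ?_
    have := hl.lev v
    gcongr

section

variable {t : ℕ → ℤ → ℤ} {A : ℕ} {lab : RV → ℕ} {hl : LabSpec t A lab} {hDISP : S_DISP} {Del : ℕ}
  {hDEG : ∀ v : Rd, {v' : Rd | Adj t v v'}.Finite ∧ {v' : Rd | Adj t v v'}.ncard ≤ Del}
  {M : ℤ × ℤ → ℕ} {hM : ∀ z, 2 ≤ M z}

theorem wk_chn {n : ℕ} {u v : Rd} (h : Chn t n u v) (hu : u.Ok) (hv : v.Ok) :
    (mkDat t A lab hl hDISP Del hDEG M hM).Wk n (Sum.inl ⟨u, hu⟩) (Sum.inl ⟨v, hv⟩) := by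
  induction h with
  | nil v => exact Dat.Wk.refl _ _
  | cons h1 h2 ih =>
    refine (ih hu h2.1).trans (Dat.Wk.of_rel ?_)
    exact h2

theorem natAbs_le_of_near (z z' : ℤ × ℤ) (K : ℕ) (h : ‖lp z - lp z'‖ ≤ K) :
    (z.1 - z'.1).natAbs ≤ K ∧ (z.2 - z'.2).natAbs ≤ K := by
  have h1 := (Complex.abs_re_le_norm (lp z - lp z')).trans h
  have h2 := (Complex.abs_im_le_norm (lp z - lp z')).trans h
  have e1 : (lp z - lp z').re = ((z.1 - z'.1 : ℤ) : ℝ) := by simp [lp]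
  have e2 : (lp z - lp z').im = ((z.2 - z'.2 : ℤ) : ℝ) := by simp [lp]
  rw [e1] at h1
  rw [e2] at h2
  have h1' : |z.1 - z'.1| ≤ (K : ℤ) := by exact_mod_cast h1
  have h2' : |z.2 - z'.2| ≤ (K : ℤ) := by exact_mod_cast h2
  have h3 := abs_le.1 h1'
  have h4 := abs_le.1 h2'
  omega

/-- Distances between roots. -/
theorem wk_main (hMAIN : S_MAIN) (z z' : ℤ × ℤ) :
    ∃ n : ℕ, (mkDat t A lab hl hDISP Del hDEG M hM).Wk n
      ((mkDat t A lab hl hDISP Del hDEG M hM).rootv z)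
      ((mkDat t A lab hl hDISP Del hDEG M hM).rootv z') ∧
      (n : ℝ) ≤ ‖lp z - lp z'‖ + (6000 + 64 * A) := by
  by_cases hfar : 2048 ≤ |(lp z).re - (lp z').re| ∨ 2048 ≤ |(lp z).im - (lp z').im|
  · obtain ⟨p, p', n, hp, hp', hj, hj', hd, hd', hn, hle⟩ := hMAIN t (lp z) (lp z') hfar
    set D := mkDat t A lab hl hDISP Del hDEG M hM with hD
    have key : ∀ (p : Rd) (hp : p.Ok) (z : ℤ × ℤ), p.j = 1 → ‖p.po t - lp z‖ ≤ 25 →
        D.Wk (32 * A + 1 + 52) (Sum.inl ⟨p, hp⟩) (D.rootv z) := by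
      intro p hp z hj hd
      have h1 : D.Wk (32 * A + 1) (Sum.inl ⟨p, hp⟩) (D.rootv (D.cell ⟨p, hp⟩)) := by
        refine D.wk_road _ _ ?_
        have h2 := hl.small ⟨p, hp⟩
        simp only [hj] at h2
        have h3 : A * (1 + 1) ^ 5 = 32 * A := by ring
        rw [h3] at h2
        calc lab ⟨p, hp⟩ < 32 * A := h2
          _ < 2 ^ (32 * A) := Nat.lt_two_pow_self
          _ ≤ D.M (D.cell ⟨p, hp⟩) ^ (32 * A) := Nat.pow_le_pow_left (D.M_two _) _
      have h2 : ‖lp (D.cell ⟨p, hp⟩) - lp z‖ ≤ (26 : ℕ) := by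
        have h3 := D.near ⟨p, hp⟩
        have h4 : lp (D.cell ⟨p, hp⟩) - lp z = (p.po t - lp z) - (D.P ⟨p, hp⟩ - lp (D.cell ⟨p, hp⟩)) := by
          change _ = (p.po t - lp z) - (p.po t - lp (D.cell ⟨p, hp⟩))
          ring
        rw [h4]
        refine (norm_sub_le _ _).trans ?_
        push_cast
        linarith
      have h3 := natAbs_le_of_near _ _ _ h2
      exact h1.trans ((D.wk_roots _ _).mono (by omega))
    have k1 := key p hp z hj hd
    have k2 := key p' hp' z' hj' hd'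
    have k3 : D.Wk n (Sum.inl ⟨p, hp⟩) (Sum.inl ⟨p', hp'⟩) := wk_chn hn hp hp'
    refine ⟨_, (k1.symm.trans k3).trans k2, ?_⟩
    push_cast
    linarith
  · push Not at hfar
    set D := mkDat t A lab hl hDISP Del hDEG M hM with hD
    refine ⟨_, D.wk_roots z z', ?_⟩
    have e1 : (lp z).re - (lp z').re = ((z.1 - z'.1 : ℤ) : ℝ) := by simp [lp]
    have e2 : (lp z).im - (lp z').im = ((z.2 - z'.2 : ℤ) : ℝ) := by simp [lp]
    rw [e1, e2] at hfar
    have h1 : |z.1 - z'.1| < 2048 := by exact_mod_cast hfar.1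
    have h2 : |z.2 - z'.2| < 2048 := by exact_mod_cast hfar.2
    have h1' := abs_lt.1 h1
    have h2' := abs_lt.1 h2
    have h3 : (z.1 - z'.1).natAbs + (z.2 - z'.2).natAbs ≤ 4096 := by omega
    have h4 : (((z.1 - z'.1).natAbs + (z.2 - z'.2).natAbs : ℕ) : ℝ) ≤ 4096 := by exact_mod_cast h3
    have h5 := norm_nonneg (lp z - lp z')
    have h6 : (0 : ℝ) ≤ A := by positivity
    linarith

end

end Pool.Agent.Y398.KZ
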