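import Mathlib

/-!
Roads in the plane (project KZ, MP_8ede36_co).

Level `j` roads: the lines `y = (a / q_j) x + (b w_j + t_j(a))`, `|a| ≤ 2 q_j`, carrying the points
whose arc length parameter is a multiple of `1 / N_j`, and their mirror images in the diagonal.
-/

namespace Pool.Agent.Y398.KZ

/-- The distance of parallel roads of level `j`. -/
def w (j : ℕ) : ℤ := 8 ^ j

/-- The slopes of roads of level `j` are multiples of `1 / q j`. -/
def q (j : ℕ) : ℤ := 32 * 8 ^ j * ((j : ℤ) + 1) ^ 2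

/-- The points of roads of level `j` are multiples of `1 / N j`. -/
def N (j : ℕ) : ℤ := ((j : ℤ) + 1) ^ 2

/-- The length on which roads of level `j` are used. -/
def s (j : ℕ) : ℝ := 64 ^ j * ((j : ℝ) + 1) ^ 2

/-- The angle under which roads of level `j` are used. -/
noncomputable def B (j : ℕ) : ℝ := 8 / (8 ^ j * ((j : ℝ) + 1) ^ 2)

/-- A road vertex: `h` (mirrored or not), the level `j`, the slope index `a`, the line index `b`,
the index `i` of the point on the line. -/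
structure Rd where
  h : Bool
  j : ℕ
  a : ℤ
  b : ℤ
  i : ℤ

/-- The slope of the roads of level `j` and slope index `a`. -/
noncomputable def sl (j : ℕ) (a : ℤ) : ℝ := (a : ℝ) / (q j : ℝ)

/-- The intercept of the road `(j, a, b)`. -/
noncomputable def ic (t : ℕ → ℤ → ℤ) (j : ℕ) (a b : ℤ) : ℝ :=
  (b : ℝ) * (w j : ℝ) + (t j a : ℝ)

/-- `rt m = √(1 + m²)`. -/
noncomputable def rt (m : ℝ) : ℝ := Real.sqrt (1 + m ^ 2)

/-- The abscissa of a road vertex (before mirroring). -/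
noncomputable def Rd.x (v : Rd) : ℝ := ((v.i : ℝ) / (N v.j : ℝ)) / rt (sl v.j v.a)

/-- The position of a road vertex (before mirroring). -/
noncomputable def Rd.p (t : ℕ → ℤ → ℤ) (v : Rd) : ℂ := ⟨v.x, sl v.j v.a * v.x + ic t v.j v.a v.b⟩

/-- The mirror at the diagonal. -/
def swp (z : ℂ) : ℂ := ⟨z.im, z.re⟩

/-- The position of a road vertex. -/
noncomputable def Rd.po (t : ℕ → ℤ → ℤ) (v : Rd) : ℂ := if v.h = true then swp (v.p t) else v.p t

/-- Valid road vertices. -/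
def Rd.Ok (v : Rd) : Prop := 1 ≤ v.j ∧ |v.a| ≤ 2 * q v.j

/-- Steps along a road. -/
def Stp (v v' : Rd) : Prop :=
  v'.h = v.h ∧ v'.j = v.j ∧ v'.a = v.a ∧ v'.b = v.b ∧ (v'.i = v.i + N v.j ∨ v'.i = v.i + N v.j - 1)

/-- The vertical distance from the road vertex `v` to the road of `v'`. -/
noncomputable def gap (t : ℕ → ℤ → ℤ) (v v' : Rd) : ℝ :=
  |(sl v'.j v'.a * v.x + ic t v'.j v'.a v'.b) - (sl v.j v.a * v.x + ic t v.j v.a v.b)|

/-- Switches to a road of the next level. -/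
def Swi (t : ℕ → ℤ → ℤ) (v v' : Rd) : Prop :=
  v'.h = v.h ∧ v'.j = v.j + 1 ∧ |sl v'.j v'.a - sl v.j v.a| ≤ 2 * B v.j ∧ gap t v v' ≤ 2 * B v.j ∧
    (v'.i = ⌊(N v'.j : ℝ) * (v.x * rt (sl v'.j v'.a) + 1 - gap t v v')⌋ ∨
      v'.i = ⌈(N v'.j : ℝ) * (v.x * rt (sl v'.j v'.a) - 1 + gap t v v')⌉)

/-- Adjacency of road vertices. -/
def Adj (t : ℕ → ℤ → ℤ) (v v' : Rd) : Prop :=
  v.Ok ∧ v'.Ok ∧ (Stp v v' ∨ Stp v' v ∨ Swi t v v' ∨ Swi t v' v)

/-- Chains of `n` adjacent pairs. -/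
inductive Chn (t : ℕ → ℤ → ℤ) : ℕ → Rd → Rd → Prop
  | nil (v : Rd) : Chn t 0 v v
  | cons {n : ℕ} {u v v' : Rd} : Chn t n u v → Adj t v v' → Chn t (n + 1) u v'

/-- The scalar product of `z` with the unit vector of slope `μ`. -/
noncomputable def dt (z : ℂ) (μ : ℝ) : ℝ := (z.re + μ * z.im) / rt μ

/-- The mirror image of a road vertex. -/
def Rd.flip (v : Rd) : Rd := { v with h := !v.h }

/-! ### Basic facts -/

theorem Adj.symm {t : ℕ → ℤ → ℤ} {v v' : Rd} (h : Adj t v v') : Adj t v' v := by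
  obtain ⟨h1, h2, h3⟩ := h
  refine ⟨h2, h1, ?_⟩
  tauto

theorem Chn.trans {t : ℕ → ℤ → ℤ} {n m : ℕ} {u v v' : Rd} (h : Chn t n u v) (h' : Chn t m v v') :
    Chn t (n + m) u v' := by
  induction h' with
  | nil v => simpa using h
  | cons h1 h2 ih => exact Chn.cons (ih h) h2

theorem Chn.one {t : ℕ → ℤ → ℤ} {v v' : Rd} (h : Adj t v v') : Chn t 1 v v' :=
  Chn.cons (Chn.nil v) h

theorem Chn.symm {t : ℕ → ℤ → ℤ} {n : ℕ} {u v : Rd} (h : Chn t n u v) : Chn t n v u := by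
  induction h with
  | nil v => exact Chn.nil v
  | cons h1 h2 ih =>
    have := (Chn.one h2.symm).trans ih
    rwa [Nat.add_comm] at this

theorem w_pos (j : ℕ) : (0 : ℝ) < (w j : ℝ) := by
  unfold w; positivity

theorem w_cast (j : ℕ) : (w j : ℝ) = 8 ^ j := by
  unfold w; push_cast; ring

theorem q_cast (j : ℕ) : (q j : ℝ) = 32 * 8 ^ j * ((j : ℝ) + 1) ^ 2 := by
  unfold q; push_cast; ring

theorem N_cast (j : ℕ) : (N j : ℝ) = ((j : ℝ) + 1) ^ 2 := by
  unfold N; push_cast; ring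

theorem q_pos (j : ℕ) : (0 : ℝ) < (q j : ℝ) := by
  rw [q_cast]; positivity

theorem N_pos (j : ℕ) : (0 : ℝ) < (N j : ℝ) := by
  rw [N_cast]; positivity

theorem s_pos (j : ℕ) : 0 < s j := by
  unfold s; positivity

theorem B_pos (j : ℕ) : 0 < B j := by
  unfold B; positivity

theorem rt_pos (m : ℝ) : 0 < rt m := by
  unfold rt; positivity

theorem rt_sq (m : ℝ) : rt m ^ 2 = 1 + m ^ 2 := by
  unfold rt; rw [Real.sq_sqrt (by positivity)]

theorem one_le_rt (m : ℝ) : 1 ≤ rt m := by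
  unfold rt; rw [Real.one_le_sqrt]; nlinarith [sq_nonneg m]

/-- `√(1+m²) ≤ 9/4` for `|m| ≤ 2`. -/
theorem rt_le (m : ℝ) (h : |m| ≤ 2) : rt m ≤ 9 / 4 := by
  unfold rt
  rw [Real.sqrt_le_left (by norm_num)]
  have := abs_le.1 h
  nlinarith

theorem B_mul_q (j : ℕ) : B j * (q j : ℝ) = 256 := by
  rw [q_cast]; unfold B; field_simp; norm_num

/-- `1 / q_j = B_j / 256`. -/
theorem inv_q (j : ℕ) : 1 / (q j : ℝ) = B j / 256 := by
  have h := B_mul_q j
  have hq := q_pos j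
  field_simp
  linarith

/-- `w_j = B_j s_j / 8`. -/
theorem w_eq (j : ℕ) : (w j : ℝ) = B j * s j / 8 := by
  rw [w_cast]; unfold B s
  have h : (64 : ℝ) ^ j = 8 ^ j * 8 ^ j := by rw [← mul_pow]; norm_num
  rw [h]; field_simp

/-- `s_j B_j² = 64 / (j+1)²`. -/
theorem s_mul_B_sq (j : ℕ) : s j * B j ^ 2 = 64 / ((j : ℝ) + 1) ^ 2 := by
  unfold B s
  have h : (64 : ℝ) ^ j = 8 ^ j * 8 ^ j := by rw [← mul_pow]; norm_num
  rw [h]; field_simp; norm_num

theorem B_succ_le (j : ℕ) : B (j + 1) ≤ B j / 8 := by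
  unfold B
  rw [div_div, div_le_div_iff₀ (by positivity) (by positivity)]
  push_cast
  have h : (8 : ℝ) ^ (j + 1) = 8 ^ j * 8 := by ring
  rw [h]
  have h1 : (0 : ℝ) < 8 ^ j := by positivity
  have h2 : (0 : ℝ) ≤ j := by positivity
  have h3 : ((j : ℝ) + 1) ^ 2 ≤ ((j : ℝ) + 1 + 1) ^ 2 := by nlinarith
  have h4 : (8 : ℝ) ^ j * ((j : ℝ) + 1) ^ 2 ≤ 8 ^ j * ((j : ℝ) + 1 + 1) ^ 2 := by gcongr
  nlinarith

theorem B_le (j : ℕ) (h : 1 ≤ j) : B j ≤ 1 / 4 := by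
  induction j, h using Nat.le_induction with
  | base => unfold B; norm_num
  | succ n hn ih =>
    have := B_succ_le n
    have := B_pos n
    linarith

/-- `B_j ≤ 1 / (j+1)²` for `j ≥ 1`. -/
theorem B_le' (j : ℕ) (h : 1 ≤ j) : B j ≤ 1 / ((j : ℝ) + 1) ^ 2 := by
  unfold B
  rw [div_le_div_iff₀ (by positivity) (by positivity)]
  have h1 : (8 : ℝ) ^ 1 ≤ 8 ^ j := pow_le_pow_right₀ (by norm_num) h
  have h2 : (0 : ℝ) ≤ ((j : ℝ) + 1) ^ 2 := by positivity
  nlinarith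

theorem s_succ (j : ℕ) : 64 * s j ≤ s (j + 1) := by
  unfold s
  push_cast
  have h : (64 : ℝ) ^ (j + 1) = 64 ^ j * 64 := by ring
  rw [h]
  have h1 : (0 : ℝ) < 64 ^ j := by positivity
  have h2 : (0 : ℝ) ≤ j := by positivity
  have h3 : ((j : ℝ) + 1) ^ 2 ≤ ((j : ℝ) + 1 + 1) ^ 2 := by nlinarith
  have h4 : (64 : ℝ) ^ j * ((j : ℝ) + 1) ^ 2 ≤ 64 ^ j * ((j : ℝ) + 1 + 1) ^ 2 := by gcongr
  nlinarith

theorem s_zero : s 0 = 1 := by unfold s; norm_num

theorem s_one : s 1 = 256 := by unfold s; norm_num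

theorem s_ge (j : ℕ) (h : 1 ≤ j) : 256 ≤ s j := by
  induction j, h using Nat.le_induction with
  | base => rw [s_one]
  | succ n hn ih =>
    have := s_succ n
    linarith

theorem w_succ (j : ℕ) : (w (j + 1) : ℝ) = 8 * (w j : ℝ) := by
  rw [w_cast, w_cast]; ring

/-- Valid roads have slopes in `[-2, 2]`. -/
theorem sl_le (j : ℕ) (a : ℤ) (h : |a| ≤ 2 * q j) : |sl j a| ≤ 2 := by
  unfold sl
  rw [abs_div, abs_of_pos (q_pos j), div_le_iff₀ (q_pos j)]
  exact_mod_cast h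

theorem swp_swp (z : ℂ) : swp (swp z) = z := rfl

theorem norm_swp (z : ℂ) : ‖swp z‖ = ‖z‖ := by
  rw [Complex.norm_def, Complex.norm_def]
  congr 1
  simp only [Complex.normSq_apply, swp]
  ring

theorem swp_sub (z z' : ℂ) : swp (z - z') = swp z - swp z' := rfl

end Pool.Agent.Y398.KZ
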