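import Pool.Agent.Y398.KZ.Build

/-!
The two theorems, from the statements of the parts.
-/

namespace Pool.Agent.Y398.KZ

/-- The Euclidean plane. -/
abbrev E2 : Type := EuclideanSpace ℝ (Fin 2)

/-- The isometry from the complex plane. -/
noncomputable def toE : ℂ ≃ₗᵢ[ℝ] E2 := Complex.orthonormalBasisOneI.repr

namespace Dat

variable (D : Dat)

theorem depth_ex (a : D.R ⊕ D.Tv) : D.Wk (D.Sz (D.cl a) + 2) a (D.rootv (D.cl a)) := by
  refine D.wk_depth a _ ?_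
  calc D.Sz (D.cl a) + 1 ≤ 2 ^ (D.Sz (D.cl a) + 1) := Nat.lt_two_pow_self.le
    _ ≤ D.M (D.cl a) ^ (D.Sz (D.cl a) + 1) := Nat.pow_le_pow_left (D.M_two _) _

theorem connected : D.G.Connected := by
  have : Nonempty (D.R ⊕ D.Tv) := ⟨D.rootv (0, 0)⟩
  rw [SimpleGraph.connected_iff]
  refine ⟨?_, this⟩
  intro a b
  exact (((D.depth_ex a).trans (D.wk_roots _ _)).trans (D.depth_ex b).symm).reach

theorem lower (a b : D.R ⊕ D.Tv) : ‖D.f a - D.f b‖ ≤ D.G.dist a b := by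
  obtain ⟨p, hp⟩ := D.connected.exists_walk_length_eq_dist a b
  rw [← hp]
  exact D.walk_disp p

end Dat

theorem upper_aux {D : Dat} {C₁ : ℝ} (hC : ∀ z z', ∃ n : ℕ, D.Wk n (D.rootv z) (D.rootv z') ∧
    (n : ℝ) ≤ ‖lp z - lp z'‖ + C₁) (a b : D.R ⊕ D.Tv) (m k : ℕ)
    (ha : D.Wk m a (D.rootv (D.cl a))) (hb : D.Wk k b (D.rootv (D.cl b))) :
    (D.G.dist a b : ℝ) ≤ ‖D.f a - D.f b‖ + 2 + C₁ + m + k := by
  obtain ⟨n, hn, hle⟩ := hC (D.cl a) (D.cl b)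
  have h1 := ((ha.trans hn).trans hb.symm).dist_le
  have h1' : (D.G.dist a b : ℝ) ≤ ((m + n + k : ℕ) : ℝ) := by exact_mod_cast h1
  push_cast at h1'
  have h2 := D.f_near a
  have h3 := D.f_near b
  have h4 : lp (D.cl a) - lp (D.cl b) =
      (D.f a - D.f b) - (D.f a - lp (D.cl a)) + (D.f b - lp (D.cl b)) := by ring
  have h5 : ‖lp (D.cl a) - lp (D.cl b)‖ ≤ ‖D.f a - D.f b‖ + 1 + 1 := by
    rw [h4]
    refine (norm_add_le _ _).trans ?_
    have := norm_sub_le (D.f a - D.f b) (D.f a - lp (D.cl a))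
    linarith
  linarith

theorem Sz_le (A : ℕ) (z : ℤ × ℤ) :
    ((A * (Jz z + 1) ^ 5 + 1 : ℕ) : ℝ) ≤ (3125 * A + 1) * Lg (lp z) ^ 5 := by
  have h1 := Jz_le z
  have h2 := one_le_Lg (lp z)
  push_cast
  have h3 : ((Jz z : ℝ) + 1) ^ 5 ≤ (5 * Lg (lp z)) ^ 5 := by gcongr
  have h4 : (1 : ℝ) ≤ Lg (lp z) ^ 5 := one_le_pow₀ h2
  have h5 : (0 : ℝ) ≤ A := by positivity
  have h6 : (5 * Lg (lp z)) ^ 5 = 3125 * Lg (lp z) ^ 5 := by ring
  rw [h6] at h3
  nlinarith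

/-- Degrees at most a power of the logarithm, with any exponent. -/
theorem T2 (hMAIN : S_MAIN) (hDISP : S_DISP) (hDEG : S_DEG) (hSHIFT : S_SHIFT)
    (hCOUNT : S_COUNT) (hLEV : S_LEV) (hLAB : S_LAB) (ε : ℝ) (hε : 0 < ε) :
    ∃ (V : Type) (G : SimpleGraph V) (f : V → E2) (C : ℝ), 0 < C ∧ G.Connected ∧
      (∀ x y, ‖f x - f y‖ ≤ (G.dist x y : ℝ)) ∧
      (∀ x y, (G.dist x y : ℝ) < ‖f x - f y‖ + C) ∧ (∀ z : E2, ∃ x, ‖f x - z‖ < C) ∧
      ∀ v, (G.neighborSet v).Finite ∧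
        ((G.neighborSet v).ncard : ℝ) ≤ C * (1 + Real.log (1 + ‖f v‖)) ^ ε := by
  obtain ⟨C₀, t, hG⟩ := hSHIFT
  obtain ⟨A, lab, hA, hl⟩ := exists_lab hCOUNT hLEV hLAB C₀ t hG
  obtain ⟨Del, hDel⟩ := hDEG
  set K : ℝ := 3125 * A + 1 with hK
  have hA0 : (0 : ℝ) ≤ A := by positivity
  have hK1 : 1 ≤ K := by rw [hK]; linarith
  let M : ℤ × ℤ → ℕ := fun z => ⌈K * Lg (lp z) ^ ε⌉₊ + 1
  have hpow1 : ∀ z : ℂ, 1 ≤ Lg z ^ ε := fun z => Real.one_le_rpow (one_le_Lg z) hε.le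
  have hM : ∀ z, 2 ≤ M z := by
    intro z
    have h1 : 0 < ⌈K * Lg (lp z) ^ ε⌉₊ := by
      rw [Nat.ceil_pos]
      have := hpow1 (lp z)
      positivity
    change 2 ≤ ⌈K * Lg (lp z) ^ ε⌉₊ + 1
    omega
  set D := mkDat t A lab hl hDISP Del (hDel t) M hM with hD
  obtain ⟨d, hd⟩ : ∃ d : ℕ, 5 / ε ≤ d := ⟨_, Nat.le_ceil _⟩
  have hd5 : 5 ≤ ε * d := by
    rw [div_le_iff₀ hε] at hd
    linarith
  have hd0 : d ≠ 0 := by
    rintro rfl
    norm_num at hd5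
  have hdep : ∀ a : D.R ⊕ D.Tv, D.Wk (d + 1) a (D.rootv (D.cl a)) := by
    intro a
    refine D.wk_depth a d ?_
    change A * (Jz (D.cl a) + 1) ^ 5 + 1 ≤ (M (D.cl a)) ^ d
    set z := D.cl a
    have h1 := Sz_le A z
    have h2 : K * Lg (lp z) ^ ε ≤ (M z : ℝ) := by
      change _ ≤ ((⌈K * Lg (lp z) ^ ε⌉₊ + 1 : ℕ) : ℝ)
      push_cast
      have := Nat.le_ceil (K * Lg (lp z) ^ ε)
      linarith
    have hL := one_le_Lg (lp z)
    have h3 : K * Lg (lp z) ^ 5 ≤ (K * Lg (lp z) ^ ε) ^ d := by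
      rw [mul_pow]
      have h4 : K ≤ K ^ d := le_self_pow₀ hK1 hd0
      have h5 : Lg (lp z) ^ 5 ≤ (Lg (lp z) ^ ε) ^ d := by
        rw [← Real.rpow_natCast, ← Real.rpow_natCast, ← Real.rpow_mul (by linarith)]
        exact Real.rpow_le_rpow_of_exponent_le hL (by push_cast; exact hd5)
      have h6 : (0 : ℝ) ≤ Lg (lp z) ^ 5 := by positivity
      gcongr
    have h4 : (K * Lg (lp z) ^ ε) ^ d ≤ (M z : ℝ) ^ d := by
      have := hpow1 (lp z)
      gcongr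
    have h5 : ((A * (Jz z + 1) ^ 5 + 1 : ℕ) : ℝ) ≤ ((M z ^ d : ℕ) : ℝ) := by
      push_cast at h1 ⊢
      exact (h1.trans h3).trans h4
    exact_mod_cast h5
  set C : ℝ := 6000 + 64 * A + 2 * (d + 1) + 3 + K + 8 + Del + 1 with hC
  have hd0' : (0 : ℝ) ≤ d := by positivity
  have hDel0 : (0 : ℝ) ≤ Del := by positivity
  have hC0 : 1 < C := by rw [hC]; linarith
  refine ⟨D.R ⊕ D.Tv, D.G, fun a => toE (D.f a), C, by linarith, D.connected, ?_, ?_, ?_, ?_⟩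
  · intro x y
    rw [← map_sub, LinearIsometryEquiv.norm_map]
    exact D.lower x y
  · intro x y
    rw [← map_sub, LinearIsometryEquiv.norm_map]
    have h2 := upper_aux (D := D) (fun z z' => wk_main hMAIN z z') x y _ _ (hdep x) (hdep y)
    push_cast at h2
    rw [hC]
    linarith
  · intro z
    refine ⟨D.rootv (cellOf (toE.symm z)), ?_⟩
    have h1 : toE (D.f (D.rootv (cellOf (toE.symm z)))) - z =
        toE (D.f (D.rootv (cellOf (toE.symm z))) - toE.symm z) := by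
      rw [map_sub, LinearIsometryEquiv.apply_symm_apply]
    rw [h1, LinearIsometryEquiv.norm_map]
    have h2 := cellOf_near (toE.symm z)
    rw [norm_sub_rev] at h2
    have h3 : ‖D.f (D.rootv (cellOf (toE.symm z))) - toE.symm z‖ ≤ 1 := h2
    linarith
  · intro v
    rw [LinearIsometryEquiv.norm_map]
    have hLg : (1 + Real.log (1 + ‖D.f v‖)) = Lg (D.f v) := rfl
    rw [hLg]
    have hp := hpow1 (D.f v)
    rcases v with v | v
    · have h1 := D.deg_road v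
      refine ⟨h1.1, ?_⟩
      have h2 : ((D.G.neighborSet (Sum.inl v)).ncard : ℝ) ≤ Del + 1 := by exact_mod_cast h1.2
      have h3 : (Del : ℝ) + 1 ≤ C := by rw [hC]; linarith
      calc ((D.G.neighborSet (Sum.inl v)).ncard : ℝ) ≤ C := h2.trans h3
        _ ≤ C * Lg (D.f (Sum.inl v)) ^ ε := le_mul_of_one_le_right (by linarith) hp
    · have h1 := D.deg_tree v
      refine ⟨h1.1, ?_⟩
      have h2 : ((D.G.neighborSet (Sum.inr v)).ncard : ℝ) ≤ (M v.1.1 : ℝ) + 6 := by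
        exact_mod_cast h1.2
      have h3 : (M v.1.1 : ℝ) ≤ K * Lg (D.f (Sum.inr v)) ^ ε + 2 := by
        change ((⌈K * Lg (lp v.1.1) ^ ε⌉₊ + 1 : ℕ) : ℝ) ≤ K * Lg (lp v.1.1) ^ ε + 2
        push_cast
        have hp' := hpow1 (lp v.1.1)
        have := Nat.ceil_lt_add_one (show 0 ≤ K * Lg (lp v.1.1) ^ ε by positivity)
        linarith
      have h4 : K + 8 ≤ C := by rw [hC]; linarith
      nlinarith

theorem clog_le (n : ℕ) (hn : 2 ≤ n) : (Nat.clog 2 n : ℝ) ≤ 1 + 2 * Real.log n := by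
  have h1 := Nat.pow_pred_clog_lt_self (b := 2) (by norm_num) (show 1 < n by omega)
  have h1' : (2 : ℝ) ^ (Nat.clog 2 n).pred ≤ (n : ℝ) := by exact_mod_cast h1.le
  have h2 := Real.log_le_log (by positivity) h1'
  rw [Real.log_pow] at h2
  have h3 : (1 : ℝ) / 2 ≤ Real.log 2 := by
    have := Real.log_two_gt_d9
    linarith
  have h4 : (0 : ℝ) ≤ ((Nat.clog 2 n).pred : ℝ) := by positivity
  have h5 : (Nat.clog 2 n : ℝ) ≤ ((Nat.clog 2 n).pred : ℝ) + 1 := by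
    have : Nat.clog 2 n ≤ (Nat.clog 2 n).pred + 1 := by
      rw [Nat.pred_eq_sub_one]
      omega
    exact_mod_cast this
  nlinarith

/-- A graph of bounded degree. -/
theorem T4 (hMAIN : S_MAIN) (hDISP : S_DISP) (hDEG : S_DEG) (hSHIFT : S_SHIFT)
    (hCOUNT : S_COUNT) (hLEV : S_LEV) (hLAB : S_LAB) :
    ∃ (V : Type) (G : SimpleGraph V) (f : V → E2) (S : Set V) (C : ℝ) (Δ : ℕ), 0 < C ∧
      G.Connected ∧ (∀ v, (G.neighborSet v).Finite ∧ (G.neighborSet v).ncard ≤ Δ) ∧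
      (∀ x y, ‖f x - f y‖ ≤ (G.dist x y : ℝ)) ∧
      (∀ x ∈ S, ∀ y ∈ S, (G.dist x y : ℝ) ≤ ‖f x - f y‖ + C) ∧
      (∀ z : E2, ∃ x ∈ S, ‖f x - z‖ < C) ∧
      ∀ x, ∃ y ∈ S, (G.dist x y : ℝ) ≤ C * (1 + Real.log (1 + Real.log (1 + ‖f x‖))) := by
  obtain ⟨C₀, t, hG⟩ := hSHIFT
  obtain ⟨A, lab, hA, hl⟩ := exists_lab hCOUNT hLEV hLAB C₀ t hG
  obtain ⟨Del, hDel⟩ := hDEG
  set K : ℝ := 3125 * A + 1 with hK
  have hA0 : (0 : ℝ) ≤ A := by positivity
  have hK1 : 1 ≤ K := by rw [hK]; linarith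
  let M : ℤ × ℤ → ℕ := fun _ => 2
  have hM : ∀ z, 2 ≤ M z := fun _ => le_refl 2
  set D := mkDat t A lab hl hDISP Del (hDel t) M hM with hD
  have hlK : 0 ≤ Real.log K := Real.log_nonneg hK1
  have hdep : ∀ a : D.R ⊕ D.Tv, ∃ m : ℕ, D.Wk m a (D.rootv (D.cl a)) ∧
      (m : ℝ) ≤ (14 + 2 * Real.log K) * (1 + Real.log (Lg (D.f a))) := by
    intro a
    set z := D.cl a with hz
    set n := A * (Jz z + 1) ^ 5 + 1 with hn
    refine ⟨Nat.clog 2 n + 1, D.wk_depth a _ ?_, ?_⟩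
    · change n ≤ 2 ^ Nat.clog 2 n
      exact Nat.le_pow_clog (by norm_num) n
    have hn2 : 2 ≤ n := by
      have : 1 ≤ A * (Jz z + 1) ^ 5 := Nat.one_le_iff_ne_zero.2 (by positivity)
      omega
    have h1 := clog_le n hn2
    have h2 : Real.log n ≤ Real.log (K * Lg (lp z) ^ 5) :=
      Real.log_le_log (by positivity) (Sz_le A z)
    have hL := one_le_Lg (lp z)
    rw [Real.log_mul (by positivity) (by positivity), Real.log_pow] at h2
    have h3 : Lg (lp z) ≤ 2 * Lg (D.f a) := by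
      refine Lg_le _ _ ?_
      rw [norm_sub_rev]
      exact D.f_near a
    have hLf := one_le_Lg (D.f a)
    have h4 : Real.log (Lg (lp z)) ≤ Real.log 2 + Real.log (Lg (D.f a)) := by
      rw [← Real.log_mul (by norm_num) (by positivity)]
      exact Real.log_le_log (by positivity) h3
    have h5 : Real.log 2 ≤ 1 := by
      have := Real.log_two_lt_d9
      linarith
    have h6 := Real.log_nonneg hLf
    push_cast at h2 ⊢
    nlinarith [mul_nonneg hlK h6]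
  set C : ℝ := 6000 + 64 * A + 14 + 2 * Real.log K with hC
  have hC0 : 1 < C := by rw [hC]; linarith
  have hmap : ∀ a b : D.R ⊕ D.Tv, ‖toE (D.f a) - toE (D.f b)‖ = ‖D.f a - D.f b‖ := by
    intro a b
    rw [← map_sub, LinearIsometryEquiv.norm_map]
  refine ⟨D.R ⊕ D.Tv, D.G, fun a => toE (D.f a), Set.range D.rootv, C, Del + 8, by linarith,
    D.connected, ?_, ?_, ?_, ?_, ?_⟩
  · rintro (v | v)
    · have h1 := D.deg_road v
      exact ⟨h1.1, h1.2.trans (by change Del + 1 ≤ _; omega)⟩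
    · have h1 := D.deg_tree v
      exact ⟨h1.1, h1.2.trans (by change 2 + 6 ≤ _; omega)⟩
  · intro x y
    rw [hmap]
    exact D.lower x y
  · rintro _ ⟨z, rfl⟩ _ ⟨z', rfl⟩
    rw [hmap]
    obtain ⟨n, hn, hle⟩ := wk_main (t := t) (hl := hl) (hDISP := hDISP) (hDEG := hDel t)
      (hM := hM) hMAIN z z'
    have h1 : (D.G.dist (D.rootv z) (D.rootv z') : ℝ) ≤ n := by exact_mod_cast hn.dist_le
    have h2 : D.f (D.rootv z) - D.f (D.rootv z') = lp z - lp z' := rfl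
    rw [h2, hC]
    linarith
  · intro z
    refine ⟨D.rootv (cellOf (toE.symm z)), ⟨_, rfl⟩, ?_⟩
    have h1 : toE (D.f (D.rootv (cellOf (toE.symm z)))) - z =
        toE (D.f (D.rootv (cellOf (toE.symm z))) - toE.symm z) := by
      rw [map_sub, LinearIsometryEquiv.apply_symm_apply]
    rw [h1, LinearIsometryEquiv.norm_map]
    have h2 := cellOf_near (toE.symm z)
    rw [norm_sub_rev] at h2
    have h3 : ‖D.f (D.rootv (cellOf (toE.symm z))) - toE.symm z‖ ≤ 1 := h2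
    linarith
  · intro x
    obtain ⟨m, hm, hle⟩ := hdep x
    refine ⟨D.rootv (D.cl x), ⟨D.cl x, rfl⟩, ?_⟩
    have h1 : (D.G.dist x (D.rootv (D.cl x)) : ℝ) ≤ m := by exact_mod_cast hm.dist_le
    refine h1.trans (hle.trans ?_)
    rw [LinearIsometryEquiv.norm_map]
    have h6 := Real.log_nonneg (one_le_Lg (D.f x))
    change _ ≤ C * (1 + Real.log (Lg (D.f x)))
    gcongr
    rw [hC]
    linarith

end Pool.Agent.Y398.KZ
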