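import Mathlib

/-!
Project KZN (MP_8ede36_co): the lower bound.  If `f : V → ℂ` is 1-Lipschitz on a connected graph
with degrees at most `Δ`, and the graph distance is at most the Euclidean distance plus `E`,
all in the disc of radius `R`, then `c log log R ≤ E log Δ`.
-/

namespace Pool.Agent.Y398.KZN

open scoped ComplexConjugate

/-- Component of `z` in the direction of the unit vector `u`. -/
noncomputable def re' (z u : ℂ) : ℝ := (z * conj u).re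

/-- Component of `z` orthogonal to the unit vector `u`. -/
noncomputable def im' (z u : ℂ) : ℝ := (z * conj u).im

/-- The lattice point with the given coordinates. -/
def lp (z : ℤ × ℤ) : ℂ := ⟨(z.1 : ℝ), (z.2 : ℝ)⟩

/-- Rational parametrisation of unit vectors. -/
noncomputable def uv (t : ℝ) : ℂ := ⟨(1 - t ^ 2) / (1 + t ^ 2), 2 * t / (1 + t ^ 2)⟩

/-- KZN-SEQ: a sequence of steps of length at most one which makes nearly optimal progress in the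
direction `u`. -/
def S_SEQ : Prop := ∀ (p : ℕ → ℂ) (n : ℕ) (u : ℂ) (L : ℝ), ‖u‖ = 1 →
  (∀ i < n, ‖p (i + 1) - p i‖ ≤ 1) → (n : ℝ) - re' (p n - p 0) u ≤ L →
  (∑ i ∈ Finset.range n, (1 - re' (p (i + 1) - p i) u) ≤ L) ∧
  (∀ i < n, 0 ≤ 1 - re' (p (i + 1) - p i) u) ∧
  ∀ i ≤ n, (i : ℝ) - L ≤ re' (p i - p 0) u ∧ re' (p i - p 0) u ≤ i ∧
    im' (p i - p 0) u ^ 2 ≤ 2 * L * i

/-- KZN-LAT: lattice points in a rotated rectangle. -/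
def S_LAT : Prop := ∀ (p u : ℂ) (α β : ℝ) (S : Finset (ℤ × ℤ)), ‖u‖ = 1 → 1 ≤ α → α ≤ β →
  (∀ z ∈ S, |re' (p - lp z) u| ≤ α ∧ |im' (p - lp z) u| ≤ β) →
  (S.card : ℝ) ≤ 25 * α * β

/-- KZN-DIR: the directions `uv (k / K)`, `k < K`, which are near a given vector. -/
def S_DIR : Prop := ∀ (K : ℕ) (h : ℂ) (τ : ℝ) (S : Finset ℕ), 0 < K → ‖h‖ ≤ 1 → 0 ≤ τ →
  (∀ k ∈ S, k < K ∧ 1 - re' h (uv (k / K)) ≤ τ) →
  (S.card : ℝ) ≤ K * Real.sqrt (8 * τ) + 1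

/-- KZN-BALL: balls in a graph with small degrees. -/
def S_BALL : Prop := ∀ (V : Type) (G : SimpleGraph V) (v : V) (r Δ : ℕ), G.Connected → 2 ≤ Δ →
  (∀ x, G.dist v x ≤ r → (G.neighborSet x).Finite ∧ (G.neighborSet x).ncard ≤ Δ) →
  {x | G.dist v x ≤ r}.Finite ∧ {x | G.dist v x ≤ r}.ncard ≤ Δ ^ (r + 1)

/-- The hypotheses of the lower bound, in the disc of radius `R`. -/
structure Hyp (V : Type) (G : SimpleGraph V) (f : V → ℂ) (R E : ℝ) (Δ : ℕ) : Prop where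
  conn : G.Connected
  lip : ∀ x y, ‖f x - f y‖ ≤ (G.dist x y : ℝ)
  one_le_E : 1 ≤ E
  two_le : 2 ≤ Δ
  deg : ∀ v, ‖f v‖ ≤ R → (G.neighborSet v).Finite ∧ (G.neighborSet v).ncard ≤ Δ
  net : ∀ z : ℂ, ‖z‖ ≤ R → ∃ x, ‖f x - z‖ ≤ E
  upper : ∀ x y, ‖f x‖ ≤ R → ‖f y‖ ≤ R → (G.dist x y : ℝ) ≤ ‖f x - f y‖ + E

/-- KZN-CELL: number of vertices over a square. -/
def S_CELL : Prop := ∀ (V : Type) (G : SimpleGraph V) (f : V → ℂ) (R E : ℝ) (Δ m : ℕ),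
  Hyp V G f R E Δ → 1 ≤ m → 8 * ((m : ℝ) + E) ≤ R →
  {v | |(f v).re| ≤ 2 * m ∧ |(f v).im| ≤ 2 * m}.Finite ∧
    ({v | |(f v).re| ≤ 2 * m ∧ |(f v).im| ≤ 2 * m}.ncard : ℝ) ≤
      36 * (m : ℝ) ^ 2 * (Δ : ℝ) ^ (3 * E + 1)

/-- KZN-PATHS: starting points and directions: `J` scales, `m = 4 ^ (J + 2)`; a nearly geodesic
sequence for every lattice point `z` of `[0, m)²` and every direction `uv (k/K)`. -/
def Paths (V : Type) (G : SimpleGraph V) (f : V → ℂ) (E : ℝ) (J K : ℕ)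
    (γ : ℤ × ℤ → ℕ → ℕ → V) : Prop :=
  ∀ z ∈ Finset.Ico (0 : ℤ) (4 ^ (J + 2)) ×ˢ Finset.Ico (0 : ℤ) (4 ^ (J + 2)), ∀ k < K,
    (∀ i < 2 * 4 ^ J, G.Adj (γ z k i) (γ z k (i + 1))) ∧
    (∀ i < 2 * 4 ^ J, 0 ≤ 1 - re' (f (γ z k (i + 1)) - f (γ z k i)) (uv (k / K))) ∧
    (∑ i ∈ Finset.range (2 * 4 ^ J), (1 - re' (f (γ z k (i + 1)) - f (γ z k i)) (uv (k / K)))
      ≤ 5 * E) ∧
    ∀ i ≤ 2 * 4 ^ J, |re' (f (γ z k i) - lp z) (uv (k / K)) - i| ≤ 6 * E ∧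
      |im' (f (γ z k i) - lp z) (uv (k / K))| ≤ Real.sqrt (10 * E * i) + E

/-- KZN-PATHS. -/
def S_PATHS : Prop := ∀ (V : Type) (G : SimpleGraph V) (f : V → ℂ) (R E : ℝ) (Δ J K : ℕ),
  Hyp V G f R E Δ → 0 < K → 4 * E ≤ 4 ^ J → 64 * (4 : ℝ) ^ J ≤ R →
  ∃ γ : ℤ × ℤ → ℕ → ℕ → V, Paths V G f E J K γ

/-- KZN-SCALE: one scale on which the average loss is small, and the good triples `(z, k, i)`. -/
def S_SCALE : Prop := ∀ (V : Type) (G : SimpleGraph V) (f : V → ℂ) (E : ℝ) (J K : ℕ)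
  (γ : ℤ × ℤ → ℕ → ℕ → V), 1 ≤ E → 1 ≤ J → 0 < K → Paths V G f E J K γ →
  ∃ j : ℕ, j ≤ J ∧ ∃ T : Finset ((ℤ × ℤ) × ℕ × ℕ),
    (∀ x ∈ T, x.1 ∈ Finset.Ico (0 : ℤ) (4 ^ (J + 2)) ×ˢ Finset.Ico (0 : ℤ) (4 ^ (J + 2)) ∧
      x.2.1 < K ∧ 4 ^ j ≤ x.2.2 ∧ x.2.2 < 2 * 4 ^ j ∧
      1 - re' (f (γ x.1 x.2.1 (x.2.2 + 1)) - f (γ x.1 x.2.1 x.2.2)) (uv (x.2.1 / K)) ≤
        10 * E / (J * 4 ^ j)) ∧
    (4 : ℝ) ^ (J + 2) * 4 ^ (J + 2) * K * 4 ^ j / 2 ≤ T.card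

/-- KZN-COUNT: the main inequality. -/
def S_MAINN : Prop := ∀ (V : Type) (G : SimpleGraph V) (f : V → ℂ) (R E : ℝ) (Δ J : ℕ),
  Hyp V G f R E Δ → 1 ≤ J → 4 * E ≤ 4 ^ J → 256 * (4 : ℝ) ^ J ≤ R →
  (J : ℝ) ≤ (10 : ℝ) ^ 18 * (Δ : ℝ) ^ (6 * E + 4) * E ^ 5

/-- KZN-FIN: the lower bound. -/
def S_LOWER : Prop := ∃ c : ℝ, 0 < c ∧ ∀ (V : Type) (G : SimpleGraph V) (f : V → ℂ) (R E : ℝ)
  (Δ : ℕ), 3 ≤ R → Hyp V G f R E Δ → c * Real.log (Real.log R) ≤ E * Real.log Δ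

end Pool.Agent.Y398.KZN
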