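import Pool.Agent.Y398.KZ.All
import Pool.Agent.Y398.KZ.Stm2

/-!
Final forms.
-/

namespace Pool.Agent.Y398.KZ

/-- The lower bound, for maps to the Euclidean plane. -/
theorem lower_E2 (hL : Pool.Agent.Y398.KZN.S_LOWER) :
    ∃ c : ℝ, 0 < c ∧ ∀ (V : Type) (G : SimpleGraph V) (f : V → E2) (Δ : ℕ) (E R : ℝ),
      G.Connected → (∀ x y, ‖f x - f y‖ ≤ (G.dist x y : ℝ)) → 2 ≤ Δ → 1 ≤ E → 3 ≤ R →
      (∀ v, ‖f v‖ ≤ R → (G.neighborSet v).Finite ∧ (G.neighborSet v).ncard ≤ Δ) →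
      (∀ z : E2, ‖z‖ ≤ R → ∃ x, ‖f x - z‖ ≤ E) →
      (∀ x y, ‖f x‖ ≤ R → ‖f y‖ ≤ R → (G.dist x y : ℝ) ≤ ‖f x - f y‖ + E) →
      c * Real.log (Real.log R) ≤ E * Real.log Δ := by
  obtain ⟨c, hc, h⟩ := hL
  refine ⟨c, hc, ?_⟩
  intro V G f Δ E R conn lip two_le one_le hR deg net upper
  have hn : ∀ z : E2, ‖toE.symm z‖ = ‖z‖ := fun z => LinearIsometryEquiv.norm_map _ _
  have hs : ∀ z z' : E2, ‖toE.symm z - toE.symm z'‖ = ‖z - z'‖ := by
    intro z z'
    rw [← map_sub, LinearIsometryEquiv.norm_map]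
  refine h V G (fun v => toE.symm (f v)) R E Δ hR ⟨conn, ?_, one_le, two_le, ?_, ?_, ?_⟩
  · intro x y
    rw [hs]
    exact lip x y
  · intro v hv
    rw [hn] at hv
    exact deg v hv
  · intro z hz
    obtain ⟨x, hx⟩ := net (toE z) (by rw [LinearIsometryEquiv.norm_map]; exact hz)
    refine ⟨x, ?_⟩
    have h1 : toE.symm (f x) - z = toE.symm (f x - toE z) := by
      rw [map_sub, LinearIsometryEquiv.symm_apply_apply]
    rw [h1, LinearIsometryEquiv.norm_map]
    exact hx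
  · intro x y hx hy
    rw [hn] at hx hy
    rw [hs]
    exact upper x y hx hy

/-- Bounded degree: additive error of order `log log`. -/
theorem upper_E2 :
    ∃ (V : Type) (G : SimpleGraph V) (f : V → E2) (S : Set V) (C : ℝ) (Δ : ℕ), 0 < C ∧
      G.Connected ∧ (∀ v, (G.neighborSet v).Finite ∧ (G.neighborSet v).ncard ≤ Δ) ∧
      (∀ x y, ‖f x - f y‖ ≤ (G.dist x y : ℝ)) ∧
      (∀ z : E2, ∃ x ∈ S, ‖f x - z‖ < C) ∧
      (∀ x ∈ S, ∀ y ∈ S, (G.dist x y : ℝ) ≤ ‖f x - f y‖ + C) ∧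
      ∀ x y, (G.dist x y : ℝ) ≤
        ‖f x - f y‖ + C * (1 + Real.log (1 + Real.log (1 + ‖f x‖ + ‖f y‖))) := by
  obtain ⟨V, G, f, S, C, Δ, hC, conn, hdeg, hlip, hS, hnet, hclose⟩ := main_T4
  refine ⟨V, G, f, S, 5 * C, Δ, by linarith, conn, hdeg, hlip, ?_, ?_, ?_⟩
  · intro z
    obtain ⟨x, hx, h⟩ := hnet z
    exact ⟨x, hx, by linarith⟩
  · intro x hx y hy
    have := hS x hx y hy
    linarith
  · intro x y
    obtain ⟨s, hs, h1⟩ := hclose x
    obtain ⟨s', hs', h2⟩ := hclose y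
    have h3 := hS s hs s' hs'
    have h4 := hlip x s
    have h5 := hlip y s'
    have h6 : (G.dist x y : ℝ) ≤ G.dist x s + G.dist s s' + G.dist y s' := by
      have h7 : G.dist x y ≤ G.dist x s + G.dist s y := conn.dist_triangle
      have h8 : G.dist s y ≤ G.dist s s' + G.dist s' y := conn.dist_triangle
      rw [SimpleGraph.dist_comm (u := s') (v := y)] at h8
      have h9 : G.dist x y ≤ G.dist x s + (G.dist s s' + G.dist y s') := by omega
      have h10 : (G.dist x y : ℝ) ≤ ((G.dist x s + (G.dist s s' + G.dist y s') : ℕ) : ℝ) := by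
        exact_mod_cast h9
      push_cast at h10
      linarith
    have h7 : ‖f s - f s'‖ ≤ ‖f x - f y‖ + ‖f x - f s‖ + ‖f y - f s'‖ := by
      have h8 : f s - f s' = (f x - f y) - (f x - f s) + (f y - f s') := by abel
      rw [h8]
      refine (norm_add_le _ _).trans ?_
      have := norm_sub_le (f x - f y) (f x - f s)
      linarith
    have hx0 := norm_nonneg (f x)
    have hy0 := norm_nonneg (f y)
    have hmon : ∀ a : ℝ, 0 ≤ a → a ≤ ‖f x‖ + ‖f y‖ →
        Real.log (1 + Real.log (1 + a)) ≤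
          Real.log (1 + Real.log (1 + ‖f x‖ + ‖f y‖)) := by
      intro a ha hle
      have h8 : 0 ≤ Real.log (1 + a) := Real.log_nonneg (by linarith)
      have h9 : Real.log (1 + a) ≤ Real.log (1 + ‖f x‖ + ‖f y‖) :=
        Real.log_le_log (by linarith) (by linarith)
      exact Real.log_le_log (by linarith) (by linarith)
    have e1 := hmon ‖f x‖ hx0 (by linarith)
    have e2 := hmon ‖f y‖ hy0 (by linarith)
    set Λ := Real.log (1 + Real.log (1 + ‖f x‖ + ‖f y‖)) with hΛ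
    have h1' : (G.dist x s : ℝ) ≤ C * (1 + Λ) := h1.trans (by gcongr)
    have h2' : (G.dist y s' : ℝ) ≤ C * (1 + Λ) := h2.trans (by gcongr)
    have hΛ0 : 0 ≤ Λ := by
      have h8 : 0 ≤ Real.log (1 + ‖f x‖ + ‖f y‖) := Real.log_nonneg (by linarith)
      exact Real.log_nonneg (by linarith)
    nlinarith

end Pool.Agent.Y398.KZ
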