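import Pool.Agent.Y398.KZ.Defs

/-!
Statements of the parts of project KZ (MP_8ede36_co).
-/

namespace Pool.Agent.Y398.KZ

/-- Moving a road vertex along its road. -/
def Rd.mv (v : Rd) (k : ℤ) : Rd := { v with i := v.i + k }

/-- KZ-RUN, first half: the cosine of the angle between two directions. -/
def S_COS : Prop := ∀ m μ : ℝ, |μ| ≤ 1 → |m - μ| ≤ 1 / 2 →
  1 - (m - μ) ^ 2 ≤ (1 + m * μ) / (rt m * rt μ) ∧ (1 + m * μ) / (rt m * rt μ) ≤ 1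

/-- KZ-RUN, second half: `n` unit steps along a road. -/
def S_RUN : Prop := ∀ (t : ℕ → ℤ → ℤ) (v : Rd) (n : ℕ) (sg : ℤ), v.Ok → (sg = 1 ∨ sg = -1) →
  Chn t n v (v.mv (sg * n * N v.j)) ∧
    (v.mv (sg * n * N v.j)).x = v.x + (sg : ℝ) * n / rt (sl v.j v.a) ∧
    ∀ μ : ℝ, dt ((v.mv (sg * n * N v.j)).p t - v.p t) μ =
      (sg : ℝ) * n * ((1 + sl v.j v.a * μ) / (rt (sl v.j v.a) * rt μ))

/-- KZ-RUN, third part: `L` small steps along a road, exactly. -/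
def S_TOPRUN : Prop := ∀ (t : ℕ → ℤ → ℤ) (v : Rd) (L : ℤ), v.Ok → (N v.j) ^ 2 ≤ L →
  ∃ n : ℕ, Chn t n v (v.mv L) ∧ (n : ℝ) ≤ (L : ℝ) / (N v.j : ℝ) + 1

/-- KZ-SW: a switch to a near road of the next level. -/
def S_SW : Prop := ∀ (t : ℕ → ℤ → ℤ) (v : Rd) (a' b' : ℤ) (μ : ℝ) (sg : ℤ), v.Ok →
  |a'| ≤ 2 * q (v.j + 1) → |μ| ≤ 1 → |sl (v.j + 1) a' - μ| ≤ 1 / 2 → (sg = 1 ∨ sg = -1) →
  |sl (v.j + 1) a' - sl v.j v.a| ≤ 2 * B v.j →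
  |(sl (v.j + 1) a' * v.x + ic t (v.j + 1) a' b') - (sl v.j v.a * v.x + ic t v.j v.a v.b)|
    ≤ 2 * B v.j →
  ∃ i' : ℤ, Adj t v ⟨v.h, v.j + 1, a', b', i'⟩ ∧
    0 ≤ (sg : ℝ) * ((⟨v.h, v.j + 1, a', b', i'⟩ : Rd).x - v.x) ∧
    (sg : ℝ) * ((⟨v.h, v.j + 1, a', b', i'⟩ : Rd).x - v.x) ≤ 1 ∧
    1 - 2 * |(sl (v.j + 1) a' * v.x + ic t (v.j + 1) a' b') -
        (sl v.j v.a * v.x + ic t v.j v.a v.b)| - 1 / ((v.j : ℝ) + 2) ^ 2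
        - (sl (v.j + 1) a' - μ) ^ 2 ≤
      (sg : ℝ) * dt ((⟨v.h, v.j + 1, a', b', i'⟩ : Rd).p t - v.p t) μ

/-- KZ-SEL: choice of a road of level `j` near a point, with a slope near a given one. -/
def S_SEL : Prop := ∀ (t : ℕ → ℤ → ℤ) (x : ℂ) (μ β₀ : ℝ) (sg : ℤ), |μ| ≤ 1 →
  (sg = 1 ∨ sg = -1) → 0 ≤ β₀ → β₀ ≤ 1 / 4 → ∀ j : ℕ, 1 ≤ j →
  ∃ a b : ℤ, |a| ≤ 2 * q j ∧ β₀ ≤ (sg : ℝ) * (sl j a - μ) ∧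
    (sg : ℝ) * (sl j a - μ) ≤ β₀ + 1 / (q j : ℝ) ∧
    (w j : ℝ) ≤ sl j a * x.re + ic t j a b - x.im ∧
    sl j a * x.re + ic t j a b - x.im < 2 * (w j : ℝ)

/-- KZ-CLIMB: from a road vertex of level one near `x` to a given road of level `j` which passes
above `x` at a distance of order `w j`. -/
def S_CLIMB : Prop := ∀ (t : ℕ → ℤ → ℤ) (x : ℂ) (μ : ℝ) (sg : ℤ), |μ| ≤ 1 →
  (sg = 1 ∨ sg = -1) → ∀ j : ℕ, 1 ≤ j → ∀ a b : ℤ, |a| ≤ 2 * q j →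
  -(1 / (q j : ℝ)) ≤ (sg : ℝ) * (sl j a - μ) →
  (sg : ℝ) * (sl j a - μ) ≤ B j + 1 / (q j : ℝ) →
  (w j : ℝ) ≤ sl j a * x.re + ic t j a b - x.im →
  sl j a * x.re + ic t j a b - x.im ≤ 9 / 4 * (w j : ℝ) →
  ∃ (p : Rd) (i : ℤ) (n : ℕ), p.Ok ∧ p.j = 1 ∧ p.h = false ∧ ‖p.p t - x‖ ≤ 25 ∧
    Chn t n p ⟨false, j, a, b, i⟩ ∧
    -1 ≤ (sg : ℝ) * ((⟨false, j, a, b, i⟩ : Rd).x - x.re) ∧
    (sg : ℝ) * ((⟨false, j, a, b, i⟩ : Rd).x - x.re) ≤ 3 * s (j - 1) + 1 ∧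
    (n : ℝ) ≤ (sg : ℝ) * dt ((⟨false, j, a, b, i⟩ : Rd).p t - p.p t) μ + 840 * (1 - 1 / (j : ℝ))

/-- KZ-MAINH: near optimal chains for pairs in horizontal position. -/
def S_MAINH : Prop := ∀ (t : ℕ → ℤ → ℤ) (x y : ℂ), |y.im - x.im| ≤ y.re - x.re →
  2048 ≤ y.re - x.re →
  ∃ (p p' : Rd) (n : ℕ), p.Ok ∧ p'.Ok ∧ p.j = 1 ∧ p'.j = 1 ∧ p.h = false ∧ p'.h = false ∧
    ‖p.p t - x‖ ≤ 25 ∧ ‖p'.p t - y‖ ≤ 25 ∧ Chn t n p p' ∧ (n : ℝ) ≤ ‖x - y‖ + 1740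

/-- KZ-MAIN: near optimal chains for all distant pairs. -/
def S_MAIN : Prop := ∀ (t : ℕ → ℤ → ℤ) (x y : ℂ),
  (2048 ≤ |x.re - y.re| ∨ 2048 ≤ |x.im - y.im|) →
  ∃ (p p' : Rd) (n : ℕ), p.Ok ∧ p'.Ok ∧ p.j = 1 ∧ p'.j = 1 ∧
    ‖p.po t - x‖ ≤ 25 ∧ ‖p'.po t - y‖ ≤ 25 ∧ Chn t n p p' ∧ (n : ℝ) ≤ ‖x - y‖ + 1740

/-- KZ-DISP: adjacent road vertices are at distance at most one. -/
def S_DISP : Prop := ∀ (t : ℕ → ℤ → ℤ) (v v' : Rd), Adj t v v' → ‖v.po t - v'.po t‖ ≤ 1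

/-- KZ-DEGUP: switches upwards. -/
def S_DEGUP : Prop := ∃ D : ℕ, ∀ (t : ℕ → ℤ → ℤ) (v : Rd), v.Ok →
  {v' : Rd | v'.Ok ∧ Swi t v v'}.Finite ∧ {v' : Rd | v'.Ok ∧ Swi t v v'}.ncard ≤ D

/-- KZ-DEGDN: switches downwards. -/
def S_DEGDN : Prop := ∃ D : ℕ, ∀ (t : ℕ → ℤ → ℤ) (v : Rd), v.Ok →
  {v' : Rd | v'.Ok ∧ Swi t v' v}.Finite ∧ {v' : Rd | v'.Ok ∧ Swi t v' v}.ncard ≤ D

/-- The degrees are bounded. -/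
def S_DEG : Prop := ∃ D : ℕ, ∀ (t : ℕ → ℤ → ℤ) (v : Rd),
  {v' : Rd | Adj t v v'}.Finite ∧ {v' : Rd | Adj t v v'}.ncard ≤ D

/-- Good shifts: through every ball of radius (about) four pass at most `C (j+1)²` roads of
level `j`, and no road of level `j` comes close to the origin. -/
def GoodT (C : ℕ) (t : ℕ → ℤ → ℤ) : Prop := ∀ j : ℕ, 1 ≤ j →
  (∀ a : ℤ, w j ≤ 4 * t j a ∧ 4 * t j a ≤ 3 * w j) ∧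
  ∀ x y : ℝ, {a : ℤ | |a| ≤ 2 * q j ∧ ∃ b : ℤ, |y - sl j a * x - ic t j a b| ≤ 4}.ncard
    ≤ C * (j + 1) ^ 2

/-- KZ-SHIFT: there are good shifts. -/
def S_SHIFT : Prop := ∃ (C : ℕ) (t : ℕ → ℤ → ℤ), GoodT C t

/-- KZ-COUNT: number of road vertices near a point. -/
def S_COUNT : Prop := ∀ (C : ℕ) (t : ℕ → ℤ → ℤ), GoodT C t → ∃ A : ℕ, ∀ (z : ℂ) (J : ℕ),
  {v : Rd | v.Ok ∧ v.j ≤ J ∧ ‖v.po t - z‖ ≤ 1}.Finite ∧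
    {v : Rd | v.Ok ∧ v.j ≤ J ∧ ‖v.po t - z‖ ≤ 1}.ncard ≤ A * (J + 1) ^ 5

/-- KZ-LEV: roads of high level are far from the origin. -/
def S_LEV : Prop := ∀ (C : ℕ) (t : ℕ → ℤ → ℤ), GoodT C t → ∀ v : Rd, v.Ok →
  (8 : ℝ) ^ v.j ≤ 9 * ‖v.po t‖

/-- KZ-LAB: labels, small for small levels, injective on every cell. -/
def S_LAB : Prop := ∀ (R κ : Type) (_ : Countable R) (cell : R → κ) (lev : R → ℕ) (F : ℕ → ℕ),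
  (∀ z J, {v : R | cell v = z ∧ lev v ≤ J}.Finite ∧ {v : R | cell v = z ∧ lev v ≤ J}.ncard ≤ F J) →
  ∃ lab : R → ℕ, (∀ v, lab v < F (lev v)) ∧ ∀ v v', cell v = cell v' → lab v = lab v' → v = v'

end Pool.Agent.Y398.KZ
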